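import Pool.Agent.H105.EQ.Main2

/-!
# Even exponents over quadratic fields: the primes above two, conclusion
-/

set_option autoImplicit false
set_option linter.all false

namespace Pool.Agent.H105.EQ

open NumberField IsDedekindDomain Polynomial WithZero Finset

variable {K : Type} [Field K] [NumberField K]

theorem tri {P : HeightOneSpectrum (𝓞 K)} {e : ℕ} (l : Loc P e) {x y z : K} {N : ℕ} (hN : N ≠ 0)
    (hz : z ≠ 0) (h : x ^ N + y ^ N = z ^ N) : Sm P x y z ∨ Sm P y x z ∨ Sm P z x y := by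
  rcases lt_trichotomy (P.valuation K x) (P.valuation K y) with h1 | h1 | h1
  · left
    have h2 : P.valuation K (z ^ N) = P.valuation K (y ^ N) := by
      rw [← h, add_comm]
      apply Valuation.map_add_eq_of_lt_left
      rw [map_pow, map_pow]
      exact pow_lt_pow_left₀ h1 zero_le hN
    rw [map_pow, map_pow] at h2
    have h3 := (pow_left_inj₀ zero_le zero_le hN).1 h2
    exact ⟨h1, h3 ▸ h1⟩
  · right; right
    have h2 : P.valuation K (z ^ N) ≤ P.valuation K x ^ N := by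
      rw [← h]
      refine (Valuation.map_add _ _ _).trans (max_le ?_ ?_)
      · rw [map_pow]
      · rw [map_pow, h1]
    rw [map_pow] at h2
    have h3 := (pow_le_pow_iff_left₀ zero_le zero_le hN).1 h2
    rcases h3.lt_or_eq with h4 | h4
    · exact ⟨h4, h1 ▸ h4⟩
    · exfalso
      have hz0 : P.valuation K z ≠ 0 := (Valuation.ne_zero_iff _).2 hz
      have hu : P.valuation K ((x / z) ^ N) = 1 := by
        rw [map_pow, map_div₀, ← h4, div_self hz0, one_pow]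
      have hw : P.valuation K ((y / z) ^ N) = 1 := by
        rw [map_pow, map_div₀, ← h1, ← h4, div_self hz0, one_pow]
      have hsum : (x / z) ^ N + (y / z) ^ N = 1 := by
        rw [div_pow, div_pow, ← add_div, h, div_self (pow_ne_zero N hz)]
      have h5 : P.valuation K (1 : K) < 1 := by
        have e3 : (1 : K) = ((x / z) ^ N - 1) + ((y / z) ^ N - 1) + 2 := by
          linear_combination -hsum
        rw [e3]
        exact (Valuation.map_add _ _ _).trans_lt (max_lt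
          ((Valuation.map_add _ _ _).trans_lt (max_lt (l.sub_one hu) (l.sub_one hw)))
          (V_two_lt l.h2))
      rw [map_one] at h5
      exact lt_irrefl _ h5
  · right; left
    have h2 : P.valuation K (z ^ N) = P.valuation K (x ^ N) := by
      rw [← h]
      apply Valuation.map_add_eq_of_lt_left
      rw [map_pow, map_pow]
      exact pow_lt_pow_left₀ h1 zero_le hN
    rw [map_pow, map_pow] at h2
    have h3 := (pow_left_inj₀ zero_le zero_le hN).1 h2
    exact ⟨h1, h3 ▸ h1⟩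

theorem split_z {P : HeightOneSpectrum (𝓞 K)} (l : Loc P 1) {x y z : K} {p : ℕ} (hp : 2 ≤ p)
    (hx : x ≠ 0) (hy : y ≠ 0) (hz : z ≠ 0) (h : x ^ (2 * p) + y ^ (2 * p) = z ^ (2 * p))
    (hs : Sm P z x y) : False := by
  have h2p : 2 * p ≠ 0 := by omega
  have hxy : P.valuation K x = P.valuation K y := by
    have h1 : P.valuation K (x ^ (2 * p)) = P.valuation K (y ^ (2 * p)) := by
      have e : x ^ (2 * p) = z ^ (2 * p) - y ^ (2 * p) := by rw [← h]; ring
      rw [e]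
      apply Valuation.map_sub_eq_of_lt_right
      rw [map_pow, map_pow]
      exact pow_lt_pow_left₀ hs.2 zero_le h2p
    rw [map_pow, map_pow] at h1
    exact (pow_left_inj₀ zero_le zero_le h2p).1 h1
  have hy0 : P.valuation K y ≠ 0 := (Valuation.ne_zero_iff _).2 hy
  have hr : P.valuation K ((x / y) ^ p) = 1 := by
    rw [map_pow, map_div₀, hxy, div_self hy0, one_pow]
  have h3 := split_sq l hr
  have h4 : ((x / y) ^ p) ^ 2 - 1 = (z / y) ^ (2 * p) - 2 := by
    have h5 : (x / y) ^ (2 * p) + 1 = (z / y) ^ (2 * p) := by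
      rw [div_pow, div_pow, ← h, add_div, div_self (pow_ne_zero _ hy)]
    rw [← h5, ← pow_mul, mul_comm p 2]
    ring
  rw [h4] at h3
  have h2V : P.valuation K (2 : K) = exp (-1) := by rw [V_eq two_ne, l.he]; rfl
  have h6 : P.valuation K ((z / y) ^ (2 * p)) < P.valuation K (2 : K) := by
    rw [lt_iff (pow_ne_zero _ (div_ne_zero hz hy)) two_ne, L_pow, L_div hz hy, l.he]
    have h7 := (lt_iff hz hy).1 hs.2
    have h8 : (2 : ℤ) ≤ p := by exact_mod_cast hp
    push_cast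
    nlinarith
  rw [Valuation.map_sub_eq_of_lt_right _ h6, h2V, exp_le_exp] at h3
  norm_num at h3

theorem ram_unique (Q : QD K) {P P' : HeightOneSpectrum (𝓞 K)} (l : Loc P 2)
    (h2 : (2 : 𝓞 K) ∈ P'.asIdeal) : P' = P := by
  have h1 : (2 : 𝓞 K) ∈ P.asIdeal ^ 2 := by
    apply mem_pow_of_L
    · rw [map_ofNat]; exact two_ne
    · rw [map_ofNat, l.he]
  have h3 : P.asIdeal ^ 2 ∣ Ideal.span {(2 : 𝓞 K)} := by
    rw [Ideal.dvd_span_singleton]
    exact h1
  obtain ⟨I, hI⟩ := h3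
  have h4 := congrArg Ideal.absNorm hI
  rw [absNorm_two Q, map_mul, map_pow, l.hn] at h4
  have h5 : Ideal.absNorm I = 1 := by omega
  rw [Ideal.absNorm_eq_one_iff.1 h5, Ideal.mul_top] at hI
  have h6 : P.asIdeal ^ 2 ≤ P'.asIdeal := by
    rw [← hI, Ideal.span_singleton_le_iff_mem]
    exact h2
  have h7 := (P'.isPrime.pow_le_iff two_ne_zero).1 h6
  have hM : P.asIdeal.IsMaximal := P.isPrime.isMaximal P.ne_bot
  exact (HeightOneSpectrum.ext (hM.eq_of_le P'.isPrime.ne_top h7)).symm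

/-- the four possibilities -/
def Four (p : ℕ) (x y z : K) : Prop :=
  (∀ w : HeightOneSpectrum (𝓞 K), ((2 * p : ℕ) : 𝓞 K) ∈ w.asIdeal → Sm w x y z) ∨
  (∀ w : HeightOneSpectrum (𝓞 K), ((2 * p : ℕ) : 𝓞 K) ∈ w.asIdeal → Sm w y x z) ∨
  (∀ w : HeightOneSpectrum (𝓞 K), ((2 * p : ℕ) : 𝓞 K) ∈ w.asIdeal → Sm w z x y) ∨
  ∃ P P' v v' : HeightOneSpectrum (𝓞 K), (2 : 𝓞 K) ∈ P.asIdeal ∧ (2 : 𝓞 K) ∈ P'.asIdeal ∧
    (p : 𝓞 K) ∈ v.asIdeal ∧ (p : 𝓞 K) ∈ v'.asIdeal ∧ Sm P x y z ∧ Sm v x y z ∧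
    Sm P' y x z ∧ Sm v' y x z

theorem Sm.swap {v : HeightOneSpectrum (𝓞 K)} {t a b : K} (h : Sm v t a b) : Sm v t b a :=
  ⟨h.2, h.1⟩

theorem four_int (Q : QD K) (hQ : Q.m % 8 ≠ 5) {p : ℕ} (hp : p.Prime) (hp2 : p ≠ 2)
    (hH : Hyp Q.m p) {x y z : 𝓞 K} (hx : x ≠ 0) (hy : y ≠ 0) (hz : z ≠ 0)
    (h : x ^ (2 * p) + y ^ (2 * p) = z ^ (2 * p)) :
    Four p (algebraMap (𝓞 K) K x) (algebraMap (𝓞 K) K y) (algebraMap (𝓞 K) K z) := by
  have sx : SolO p z y x 1 := ⟨hz, hy, hx, Or.inl rfl, by rw [← h]; push_cast; ring⟩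
  have sy : SolO p z x y 1 := ⟨hz, hx, hy, Or.inl rfl, by rw [← h]; push_cast; ring⟩
  have sz : SolO p x y z (-1) := ⟨hx, hy, hz, Or.inr rfl, by rw [← h]; push_cast; ring⟩
  have hxK := alg_ne (K := K) hx
  have hyK := alg_ne (K := K) hy
  have hzK := alg_ne (K := K) hz
  have hK : (algebraMap (𝓞 K) K x) ^ (2 * p) + (algebraMap (𝓞 K) K y) ^ (2 * p) =
      (algebraMap (𝓞 K) K z) ^ (2 * p) := by
    have := congrArg (algebraMap (𝓞 K) K) h
    rwa [map_add, map_pow, map_pow, map_pow] at this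
  have h2p : 2 * p ≠ 0 := by have := hp.pos; omega
  have htri : ∀ P : HeightOneSpectrum (𝓞 K), (2 : 𝓞 K) ∈ P.asIdeal →
      Sm P (algebraMap (𝓞 K) K x) (algebraMap (𝓞 K) K y) (algebraMap (𝓞 K) K z) ∨
      Sm P (algebraMap (𝓞 K) K y) (algebraMap (𝓞 K) K x) (algebraMap (𝓞 K) K z) ∨
      Sm P (algebraMap (𝓞 K) K z) (algebraMap (𝓞 K) K x) (algebraMap (𝓞 K) K y) := by
    intro P h2
    obtain ⟨e, l⟩ := loc_exists Q hQ P h2
    exact tri l h2p hzK hK
  have hsplit : ∀ w : HeightOneSpectrum (𝓞 K), ((2 * p : ℕ) : 𝓞 K) ∈ w.asIdeal →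
      (2 : 𝓞 K) ∈ w.asIdeal ∨ (p : 𝓞 K) ∈ w.asIdeal := by
    intro w hw
    apply w.isPrime.mem_or_mem
    push_cast at hw
    exact hw
  have allx : (∀ P : HeightOneSpectrum (𝓞 K), (2 : 𝓞 K) ∈ P.asIdeal →
      Sm P (algebraMap (𝓞 K) K x) (algebraMap (𝓞 K) K y) (algebraMap (𝓞 K) K z)) →
      Four p (algebraMap (𝓞 K) K x) (algebraMap (𝓞 K) K y) (algebraMap (𝓞 K) K z) := by
    intro hall
    refine Or.inl fun w hw => ?_
    rcases hsplit w hw with h' | h'
    · exact hall w h'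
    · exact (main2 Q hQ hp hp2 hH sx (fun P h2 => (hall P h2).swap) w h').swap
  have ally : (∀ P : HeightOneSpectrum (𝓞 K), (2 : 𝓞 K) ∈ P.asIdeal →
      Sm P (algebraMap (𝓞 K) K y) (algebraMap (𝓞 K) K x) (algebraMap (𝓞 K) K z)) →
      Four p (algebraMap (𝓞 K) K x) (algebraMap (𝓞 K) K y) (algebraMap (𝓞 K) K z) := by
    intro hall
    refine Or.inr (Or.inl fun w hw => ?_)
    rcases hsplit w hw with h' | h'
    · exact hall w h'
    · exact (main2 Q hQ hp hp2 hH sy (fun P h2 => (hall P h2).swap) w h').swap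
  have allz : (∀ P : HeightOneSpectrum (𝓞 K), (2 : 𝓞 K) ∈ P.asIdeal →
      Sm P (algebraMap (𝓞 K) K z) (algebraMap (𝓞 K) K x) (algebraMap (𝓞 K) K y)) →
      Four p (algebraMap (𝓞 K) K x) (algebraMap (𝓞 K) K y) (algebraMap (𝓞 K) K z) := by
    intro hall
    refine Or.inr (Or.inr (Or.inl fun w hw => ?_))
    rcases hsplit w hw with h' | h'
    · exact hall w h'
    · exact main2 Q hQ hp hp2 hH sz hall w h'
  have hm4 : Q.m % 4 ≠ 0 := by
    intro h0
    have h1 := Q.sf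
    have h3 : (2 : ℤ) * 2 ∣ Q.m := by omega
    have h4 := h1 2 h3
    exact absurd h4 (by norm_num [Int.isUnit_iff])
  by_cases hm : Q.m % 4 = 2 ∨ Q.m % 4 = 3
  · -- two is ramified
    obtain ⟨P0, hP0⟩ := exists_above Q Nat.prime_two
    have h20 : (2 : 𝓞 K) ∈ P0.asIdeal := by exact_mod_cast hP0
    have l := loc_ram Q hm P0 h20
    have huniq : ∀ P : HeightOneSpectrum (𝓞 K), (2 : 𝓞 K) ∈ P.asIdeal → P = P0 :=
      fun P h2 => ram_unique Q l h2
    rcases htri P0 h20 with h' | h' | h'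
    · exact allx fun P h2 => by rw [huniq P h2]; exact h'
    · exact ally fun P h2 => by rw [huniq P h2]; exact h'
    · exact allz fun P h2 => by rw [huniq P h2]; exact h'
  · -- two splits
    have hm8 : Q.m % 8 = 1 := by omega
    have htri' : ∀ P : HeightOneSpectrum (𝓞 K), (2 : 𝓞 K) ∈ P.asIdeal →
        Sm P (algebraMap (𝓞 K) K x) (algebraMap (𝓞 K) K y) (algebraMap (𝓞 K) K z) ∨
        Sm P (algebraMap (𝓞 K) K y) (algebraMap (𝓞 K) K x) (algebraMap (𝓞 K) K z) := by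
      intro P h2
      rcases htri P h2 with h' | h' | h'
      · exact Or.inl h'
      · exact Or.inr h'
      · exact (split_z (loc_split Q hm8 P h2) hp.two_le hxK hyK hzK hK h').elim
    by_cases hall : ∀ P : HeightOneSpectrum (𝓞 K), (2 : 𝓞 K) ∈ P.asIdeal →
        Sm P (algebraMap (𝓞 K) K x) (algebraMap (𝓞 K) K y) (algebraMap (𝓞 K) K z)
    · exact allx hall
    by_cases hall' : ∀ P : HeightOneSpectrum (𝓞 K), (2 : 𝓞 K) ∈ P.asIdeal →
        Sm P (algebraMap (𝓞 K) K y) (algebraMap (𝓞 K) K x) (algebraMap (𝓞 K) K z)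
    · exact ally hall'
    push Not at hall hall'
    obtain ⟨P', h2', hP'⟩ := hall
    obtain ⟨P, h2, hP⟩ := hall'
    have hPy := (htri' P' h2').resolve_left hP'
    have hPx := (htri' P h2).resolve_right hP
    obtain ⟨v, hv, hvs⟩ := main1 Q hQ hp hp2 hH sx h2 hPx.swap
    obtain ⟨v', hv', hvs'⟩ := main1 Q hQ hp hp2 hH sy h2' hPy.swap
    exact Or.inr (Or.inr (Or.inr ⟨P, P', v, v', h2, h2', hv, hv', hPx, hvs.swap, hPy, hvs'.swap⟩))

theorem Sm_scale {v : HeightOneSpectrum (𝓞 K)} {k t a b : K} (hk : k ≠ 0)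
    (h : Sm v (k * t) (k * a) (k * b)) : Sm v t a b := by
  obtain ⟨h1, h2⟩ := h
  rw [map_mul, map_mul] at h1 h2
  have hk0 : 0 < v.valuation K k := zero_lt_iff.2 ((Valuation.ne_zero_iff _).2 hk)
  exact ⟨lt_of_mul_lt_mul_left h1 zero_le, lt_of_mul_lt_mul_left h2 zero_le⟩

theorem Sm_pow {v : HeightOneSpectrum (𝓞 K)} {t a b : K} {j : ℕ} (h : Sm v (t ^ j) (a ^ j) (b ^ j)) :
    Sm v t a b := by
  obtain ⟨h1, h2⟩ := h
  rw [map_pow, map_pow] at h1 h2
  exact ⟨lt_of_pow_lt_pow_left₀ j zero_le h1, lt_of_pow_lt_pow_left₀ j zero_le h2⟩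

theorem Four.mono {p : ℕ} {x y z x' y' z' : K}
    (h1 : ∀ w : HeightOneSpectrum (𝓞 K), Sm w x y z → Sm w x' y' z')
    (h2 : ∀ w : HeightOneSpectrum (𝓞 K), Sm w y x z → Sm w y' x' z')
    (h3 : ∀ w : HeightOneSpectrum (𝓞 K), Sm w z x y → Sm w z' x' y')
    (h : Four p x y z) : Four p x' y' z' := by
  rcases h with h | h | h | ⟨P, P', v, v', a1, a2, a3, a4, a5, a6, a7, a8⟩
  · exact Or.inl fun w hw => h1 w (h w hw)
  · exact Or.inr (Or.inl fun w hw => h2 w (h w hw))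
  · exact Or.inr (Or.inr (Or.inl fun w hw => h3 w (h w hw)))
  · exact Or.inr (Or.inr (Or.inr ⟨P, P', v, v', a1, a2, a3, a4, h1 _ a5, h1 _ a6, h2 _ a7, h2 _ a8⟩))

theorem four_main (hK : Module.finrank ℚ K = 2) (h5 : NumberField.discr K % 8 ≠ 5) {p n : ℕ}
    (hp : p.Prime) (hp2 : p ≠ 2)
    (hd : ∀ d : ℤ, Odd d → d ∣ NumberField.discr K → (NumberField.discr K < 0 ∨ 0 < d) →
      8 ∣ (p : ℤ) - d → IsSquare (NumberField.discr K : ZMod p) ∧
        (NumberField.discr K : ZMod p) ≠ 0 ∧ ¬ IsSquare (d : ZMod p))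
    (hn : 2 * p ∣ n) {x y z : K} (hx : x ≠ 0) (hy : y ≠ 0) (hz : z ≠ 0)
    (h : x ^ n + y ^ n = z ^ n) : Four p x y z := by
  classical
  obtain ⟨Q⟩ := exists_QD (K := K) hK
  have hQ : Q.m % 8 ≠ 5 := by
    intro h'
    apply h5
    rw [Q.hm4 (by omega)]
    exact h'
  have : Fact p.Prime := ⟨hp⟩
  have h20 : (2 : ZMod p) ≠ 0 := by
    intro h0
    have : ((2 : ℕ) : ZMod p) = 0 := by exact_mod_cast h0
    rw [ZMod.natCast_eq_zero_iff] at this
    exact hp2 ((Nat.prime_dvd_prime_iff_eq hp Nat.prime_two).1 this)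
  have hH : Hyp Q.m p := by
    intro d hdo hdm hsg h8
    obtain ⟨a1, a2, a3⟩ := hd d hdo (by
      rcases Q.hm with h' | h' <;> rw [h']
      · exact hdm
      · exact hdm.mul_left 4) (by
      rcases hsg with h'' | h''
      · left
        rcases Q.hm with h' | h' <;> rw [h'] <;> omega
      · exact Or.inr h'') h8
    refine ⟨?_, ?_, a3⟩
    · rcases Q.hm with h' | h'
      · rwa [h'] at a1
      · rw [h'] at a1
        obtain ⟨r, hr⟩ := a1
        refine ⟨r / 2, ?_⟩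
        push_cast at hr
        field_simp
        linear_combination hr
    · intro h0
      apply a2
      rcases Q.hm with h' | h' <;> rw [h']
      · exact h0
      · push_cast
        rw [h0, mul_zero]
  obtain ⟨j, rfl⟩ := hn
  -- a common denominator
  obtain ⟨b, hb⟩ := IsLocalization.exist_integer_multiples_of_finset
    (nonZeroDivisors (𝓞 K)) ({x ^ j, y ^ j, z ^ j} : Finset K)
  have hbK : algebraMap (𝓞 K) K (b : 𝓞 K) ≠ 0 := alg_ne (nonZeroDivisors.ne_zero b.2)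
  obtain ⟨x', hx'⟩ := hb (x ^ j) (by simp)
  obtain ⟨y', hy'⟩ := hb (y ^ j) (by simp)
  obtain ⟨z', hz'⟩ := hb (z ^ j) (by simp)
  rw [Algebra.smul_def] at hx' hy' hz'
  have hne : ∀ {u : K} {u' : 𝓞 K}, u ≠ 0 →
      algebraMap (𝓞 K) K u' = algebraMap (𝓞 K) K (b : 𝓞 K) * u ^ j → u' ≠ 0 := by
    rintro u u' hu h1 rfl
    rw [map_zero] at h1
    exact mul_ne_zero hbK (pow_ne_zero j hu) h1.symm
  have heq : x' ^ (2 * p) + y' ^ (2 * p) = z' ^ (2 * p) := by
    apply RingOfIntegers.coe_injective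
    rw [map_add, map_pow, map_pow, map_pow]
    have e1 : (algebraMap (𝓞 K) K x') = algebraMap (𝓞 K) K (b : 𝓞 K) * x ^ j := hx'
    have e2 : (algebraMap (𝓞 K) K y') = algebraMap (𝓞 K) K (b : 𝓞 K) * y ^ j := hy'
    have e3 : (algebraMap (𝓞 K) K z') = algebraMap (𝓞 K) K (b : 𝓞 K) * z ^ j := hz'
    rw [e1, e2, e3, mul_pow, mul_pow, mul_pow, ← pow_mul, ← pow_mul, ← pow_mul, mul_comm j (2 * p),
      ← mul_add, h]
  refine (four_int Q hQ hp hp2 hH (hne hx hx') (hne hy hy') (hne hz hz') heq).mono ?_ ?_ ?_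
  · intro w hw
    rw [hx', hy', hz'] at hw
    exact Sm_pow (Sm_scale hbK hw)
  · intro w hw
    rw [hx', hy', hz'] at hw
    exact Sm_pow (Sm_scale hbK hw)
  · intro w hw
    rw [hx', hy', hz'] at hw
    exact Sm_pow (Sm_scale hbK hw)

end Pool.Agent.H105.EQ
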