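import Pool.Agent.H105.EQ.Loc

/-!
# Even exponents over quadratic fields: integers with even valuations
-/

set_option autoImplicit false
set_option linter.all false

namespace Pool.Agent.H105.EQ

open NumberField IsDedekindDomain Polynomial WithZero

/-! ### integers -/

theorem exists_d {m s : ℤ} (hs : s ≠ 0)
    (h : ∀ q : ℕ, q.Prime → q ≠ 2 → ¬ (q : ℤ) ∣ m → Even (s.natAbs.factorization q)) :
    ∃ (e : ℕ) (b d : ℤ), s = 2 ^ e * (d * b ^ 2) ∧ Odd b ∧ Odd d ∧ d ∣ m ∧ (0 < s → 0 < d) := by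
  obtain ⟨e, s', h1, h2⟩ := int_two s hs
  have hs' : s' ≠ 0 := by rintro rfl; apply hs; rw [h1]; ring
  obtain ⟨a, b, hab, ha⟩ := Nat.sq_mul_squarefree s'.natAbs
  have hab0 : b ^ 2 * a ≠ 0 := by rw [hab]; exact Int.natAbs_ne_zero.2 hs'
  have hb0 : b ≠ 0 := by rintro rfl; apply hab0; ring
  have ha0 : a ≠ 0 := by rintro rfl; apply hab0; ring
  have hodd : Odd (b ^ 2 * a) := by
    rw [hab]
    exact Int.natAbs_odd.2 h2
  have hbo : Odd b := by
    rw [Nat.odd_mul] at hodd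
    exact Nat.Odd.of_mul_left (m := b) (n := b) (by rw [← pow_two]; exact hodd.1)
  have hao : Odd a := (Nat.odd_mul.1 hodd).2
  have ham : (a : ℤ) ∣ m := by
    have h3 : a ∣ m.natAbs := by
      rw [← Nat.prod_primeFactors_of_squarefree ha]
      apply Finset.prod_primes_dvd
      · intro q hq
        exact (Nat.prime_of_mem_primeFactors hq).prime
      · intro q hq
        have hqp := Nat.prime_of_mem_primeFactors hq
        have hqa := Nat.dvd_of_mem_primeFactors hq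
        have hq2 : q ≠ 2 := by
          rintro rfl
          obtain ⟨k, hk⟩ := hao
          omega
        by_contra hcon
        have hcon' : ¬ (q : ℤ) ∣ m := fun h => hcon (Int.natCast_dvd.1 h)
        have h4 := h q hqp hq2 hcon'
        have h5 : s.natAbs = 2 ^ e * (b ^ 2 * a) := by
          rw [hab, h1, Int.natAbs_mul, Int.natAbs_pow]
          rfl
        rw [h5, Nat.factorization_mul (pow_ne_zero e two_ne_zero) hab0,
          Nat.factorization_mul (pow_ne_zero 2 hb0) ha0, Nat.factorization_pow,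
          Nat.factorization_pow] at h4
        simp only [Finsupp.add_apply, Finsupp.smul_apply, smul_eq_mul] at h4
        have h6 : (Nat.factorization 2) q = 0 :=
          Nat.factorization_eq_zero_of_not_dvd fun h =>
            hq2 ((Nat.prime_dvd_prime_iff_eq hqp Nat.prime_two).1 h)
        have h7 : a.factorization q = 1 := by
          have h8 := (Nat.squarefree_iff_factorization_le_one ha0).1 ha q
          have h9 := hqp.factorization_pos_of_dvd ha0 hqa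
          omega
        rw [h6, h7, mul_zero, zero_add] at h4
        rw [Nat.even_add_one] at h4
        exact h4 ⟨b.factorization q, by ring⟩
    exact Int.natCast_dvd.2 h3
  have hbo' : Odd (b : ℤ) := by exact_mod_cast hbo
  have h3 : ((s'.natAbs : ℕ) : ℤ) = (b : ℤ) ^ 2 * a := by rw [← hab]; push_cast; rfl
  have h2e : (0 : ℤ) < 2 ^ e := by positivity
  rcases lt_or_gt_of_ne hs' with hneg | hpos
  · refine ⟨e, b, -a, ?_, hbo', ?_, (neg_dvd.2 ham), fun h0 => ?_⟩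
    · have h4 : s' = -((b : ℤ) ^ 2 * a) := by omega
      rw [h1, h4]
      ring
    · have : Odd (a : ℤ) := by exact_mod_cast hao
      exact this.neg
    · exfalso
      rw [h1] at h0
      have := mul_neg_of_pos_of_neg h2e hneg
      omega
  · refine ⟨e, b, a, ?_, hbo', by exact_mod_cast hao, ham, fun _ => by
      have := Nat.pos_of_ne_zero ha0; exact_mod_cast this⟩
    have h4 : s' = ((b : ℤ) ^ 2 * a) := by omega
    rw [h1, h4]
    ring

/-- the hypothesis on `p` -/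
def Hyp (m : ℤ) (p : ℕ) : Prop := ∀ d : ℤ, Odd d → d ∣ m → (m < 0 ∨ 0 < d) → 8 ∣ (p : ℤ) - d →
  IsSquare (m : ZMod p) ∧ (m : ZMod p) ≠ 0 ∧ ¬ IsSquare (d : ZMod p)

theorem exists_cls {m p b d : ℤ} {e : ℕ} (hm0 : m ≠ 0) (hd : Odd d) (hb : Odd b) (hdm : d ∣ m)
    (hsg : m < 0 ∨ 0 < d) (h : Cls m e (p * (d * b ^ 2))) :
    ∃ d' : ℤ, Odd d' ∧ d' ∣ m ∧ (m < 0 ∨ 0 < d') ∧ 8 ∣ p - d' ∧
      ((Even e ∧ d' = d) ∨ (Even e ∧ m = d * d') ∨ (Odd e ∧ m = 2 * (d * d'))) := by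
  obtain ⟨y, hy⟩ := sq_odd hd
  obtain ⟨w, hw⟩ := sq_odd hb
  -- from `8 ∣ p d b ^ 2 - d d'` to `8 ∣ p - d'`
  have key : ∀ d' : ℤ, 8 ∣ p * (d * b ^ 2) - d * d' → 8 ∣ p - d' := by
    intro d' h
    obtain ⟨l, hl⟩ := h
    have h1 : d * (p * (d * b ^ 2) - d * d') = d ^ 2 * (p * b ^ 2 - d') := by ring
    rw [hl, hy, hw] at h1
    exact ⟨d * l - y * (p * (8 * w + 1) - d') - p * w, by linarith⟩
  have sgn : ∀ d' n : ℤ, 0 < n → m = n * (d * d') → (m < 0 ∨ 0 < d') := by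
    intro d' n hn hd'
    rcases hsg with h' | h'
    · exact Or.inl h'
    · rcases lt_or_gt_of_ne hm0 with hm | hm
      · exact Or.inl hm
      · right
        rw [hd'] at hm
        exact (mul_pos_iff_of_pos_left h').1 ((mul_pos_iff_of_pos_left hn).1 hm)
  rcases h with ⟨he, h | ⟨h4, h⟩⟩ | ⟨he, h4, h⟩
  · refine ⟨d, hd, hdm, hsg, key d ?_, Or.inl ⟨he, rfl⟩⟩
    obtain ⟨l, hl⟩ := h
    exact ⟨l - y, by rw [← pow_two d, hy]; linarith⟩
  · obtain ⟨d', hd'⟩ := hdm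
    have hdo : Odd d' := by
      have : Odd (d * d') := by rw [← hd', Int.odd_iff]; omega
      exact (Int.odd_mul.1 this).2
    refine ⟨d', hdo, ⟨d, by rw [hd']; ring⟩, sgn d' 1 one_pos (by rw [hd']; ring), key d' ?_,
      Or.inr (Or.inl ⟨he, hd'⟩)⟩
    rwa [← hd']
  · obtain ⟨n, hn⟩ : ∃ n, m = 2 * n := ⟨m / 2, by omega⟩
    have h5 : m / 2 = n := by omega
    rw [h5] at h
    have hno : Odd n := by rw [Int.odd_iff]; omega
    have hdn : d ∣ n := by
      have hc : IsCoprime d 2 := by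
        obtain ⟨a, rfl⟩ := hd
        exact ⟨1, -a, by ring⟩
      rw [hn] at hdm
      exact hc.dvd_of_dvd_mul_left hdm
    obtain ⟨d', hd'⟩ := hdn
    have hdo : Odd d' := by
      rw [hd'] at hno
      exact (Int.odd_mul.1 hno).2
    have hm2 : m = 2 * (d * d') := by rw [hn, hd']
    refine ⟨d', hdo, ⟨2 * d, by rw [hm2]; ring⟩, sgn d' 2 two_pos hm2, key d' ?_,
      Or.inr (Or.inr ⟨he, hm2⟩)⟩
    rwa [← hd']

/-- the contradiction -/
theorem no_cls {m b d : ℤ} {p e : ℕ} [Fact p.Prime] (hp2 : p ≠ 2) (hH : Hyp m p) (hm0 : m ≠ 0)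
    (hd : Odd d) (hb : Odd b) (hdm : d ∣ m) (hsg : m < 0 ∨ 0 < d)
    (hq : IsSquare (m : ZMod p) → (m : ZMod p) ≠ 0 → IsSquare ((2 ^ e * d : ℤ) : ZMod p)) :
    ¬ Cls m e (p * (d * b ^ 2)) := by
  intro h
  obtain ⟨d', hdo, hdm', hsg', h8, hc⟩ := exists_cls hm0 hd hb hdm hsg h
  obtain ⟨h1, h2, h3⟩ := hH d' hdo hdm' hsg' h8
  have h4 := hq h1 h2
  apply h3
  have h20 : (2 : ZMod p) ≠ 0 := by
    have hp : p.Prime := Fact.out
    intro h0
    have : ((2 : ℕ) : ZMod p) = 0 := by exact_mod_cast h0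
    rw [ZMod.natCast_eq_zero_iff] at this
    exact hp2 ((Nat.prime_dvd_prime_iff_eq hp Nat.prime_two).1 this)
  -- `d` is not zero modulo `p`
  rcases hc with ⟨⟨k, hk⟩, rfl⟩ | ⟨⟨k, hk⟩, hm⟩ | ⟨⟨k, hk⟩, hm⟩
  · obtain ⟨r, hr⟩ := h4
    refine ⟨r / 2 ^ k, ?_⟩
    rw [hk] at hr
    push_cast at hr ⊢
    field_simp
    linear_combination hr
  · obtain ⟨r, hr⟩ := h4
    obtain ⟨u, hu⟩ := h1
    have hd0 : (d : ZMod p) ≠ 0 := by
      intro h0
      apply h2
      rw [hm]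
      push_cast
      rw [h0, zero_mul]
    have hr0 : r ≠ 0 := by
      rintro rfl
      rw [zero_mul] at hr
      push_cast at hr
      rcases mul_eq_zero.1 hr with h' | h'
      · exact pow_ne_zero e h20 h'
      · exact hd0 h'
    refine ⟨u * 2 ^ k / r, ?_⟩
    rw [hk] at hr
    rw [hm] at hu
    push_cast at hr hu ⊢
    rw [div_mul_div_comm, eq_div_iff (mul_ne_zero hr0 hr0), ← hr]
    linear_combination (2 : ZMod p) ^ (k + k) * hu
  · obtain ⟨r, hr⟩ := h4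
    obtain ⟨u, hu⟩ := h1
    have hd0 : (d : ZMod p) ≠ 0 := by
      intro h0
      apply h2
      rw [hm]
      push_cast
      rw [h0, zero_mul, mul_zero]
    have hr0 : r ≠ 0 := by
      rintro rfl
      rw [zero_mul] at hr
      push_cast at hr
      rcases mul_eq_zero.1 hr with h' | h'
      · exact pow_ne_zero e h20 h'
      · exact hd0 h'
    refine ⟨u * 2 ^ k / r, ?_⟩
    rw [hk] at hr
    rw [hm] at hu
    push_cast at hr hu ⊢
    rw [div_mul_div_comm, eq_div_iff (mul_ne_zero hr0 hr0), ← hr]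
    linear_combination (2 : ZMod p) ^ (2 * k) * hu

variable {K : Type} [Field K] [NumberField K]

/-- odd unramified primes -/
theorem L_prime (Q : QD K) {q : ℕ} (hq : q.Prime) (hq2 : q ≠ 2) (hqm : ¬ (q : ℤ) ∣ Q.m)
    {P : HeightOneSpectrum (𝓞 K)} (hP : (q : 𝓞 K) ∈ P.asIdeal) :
    L (P.valuation K) (q : K) = -1 := by
  have hq0 : (q : K) ≠ 0 := by exact_mod_cast hq.ne_zero
  have h1 : L (P.valuation K) (q : K) < 0 := by
    rw [← lt_one_iff hq0]
    have h := (HeightOneSpectrum.valuation_lt_one_iff_mem (K := K) P (q : 𝓞 K)).2 hP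
    have e : algebraMap (𝓞 K) K (q : 𝓞 K) = (q : K) := map_natCast _ _
    rw [← e]
    exact h
  by_contra hcon
  have h2 : (q : 𝓞 K) ∈ P.asIdeal ^ 2 := by
    apply mem_pow_of_L
    · rw [map_natCast]; exact hq0
    · rw [map_natCast]; push_cast; omega
  have hnq : Ideal.absNorm (Ideal.span {(q : 𝓞 K)}) = q ^ 2 := by
    rw [Ideal.absNorm_span_singleton]
    have h1 : Algebra.norm ℤ (q : 𝓞 K) = (q : ℤ) ^ 2 := by
      have h2 := Q.hN (q : 𝓞 K)
      have hσq : Q.σ (q : 𝓞 K) = q := map_natCast Q.σ q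
      rw [hσq] at h2
      have h3 : ((Algebra.norm ℤ (q : 𝓞 K) : ℤ) : 𝓞 K) = (((q : ℤ) ^ 2 : ℤ) : 𝓞 K) := by
        rw [h2]
        push_cast
        ring
      exact_mod_cast h3
    rw [h1]
    simp
  have h3 : P.asIdeal ^ 2 ∣ Ideal.span {(q : 𝓞 K)} := by
    rw [Ideal.dvd_span_singleton]
    exact h2
  obtain ⟨I, hI⟩ := h3
  have h4 := congrArg Ideal.absNorm hI
  rw [hnq, map_mul, map_pow] at h4
  have hN2 := two_le_absNorm P
  have h5 : Ideal.absNorm P.asIdeal ∣ q := by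
    have : Ideal.absNorm P.asIdeal ^ 2 ∣ q ^ 2 := ⟨_, h4⟩
    exact (Nat.pow_dvd_pow_iff two_ne_zero).1 this
  have h6 : Ideal.absNorm P.asIdeal = q := by
    rcases (Nat.dvd_prime hq).1 h5 with h | h
    · omega
    · exact h
  rw [h6] at h4
  have h7 : Ideal.absNorm I = 1 := by
    have hq' : 0 < q ^ 2 := pow_pos hq.pos 2
    exact Nat.eq_of_mul_eq_mul_left hq' (by rw [← h4, mul_one])
  have h8 : P.asIdeal ^ 2 = Ideal.span {(q : 𝓞 K)} := by
    rw [hI, Ideal.absNorm_eq_one_iff.1 h7, Ideal.mul_top]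
  -- the residue of `R`
  obtain ⟨n, hn⟩ : ∃ n : ℤ, Q.R - n ∈ P.asIdeal := by
    have hcard : Nat.card (𝓞 K ⧸ P.asIdeal) = q := by
      rw [← h6]
      rfl
    have : Finite (𝓞 K ⧸ P.asIdeal) := Nat.finite_of_card_ne_zero (by rw [hcard]; exact hq.ne_zero)
    have := Fintype.ofFinite (𝓞 K ⧸ P.asIdeal)
    have hcard' : Fintype.card (𝓞 K ⧸ P.asIdeal) = q := by
      rw [← Nat.card_eq_fintype_card, hcard]
    have : NeZero q := ⟨hq.ne_zero⟩
    obtain ⟨e⟩ : Nonempty (ZMod q ≃+* 𝓞 K ⧸ P.asIdeal) :=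
      ⟨ZMod.ringEquivOfPrime (𝓞 K ⧸ P.asIdeal) hq hcard'⟩
    obtain ⟨z, hz⟩ : ∃ z, e z = Ideal.Quotient.mk P.asIdeal Q.R := e.surjective _
    refine ⟨(z.val : ℤ), ?_⟩
    rw [← Ideal.Quotient.eq_zero_iff_mem, map_sub, sub_eq_zero, ← hz]
    have h9 : Ideal.Quotient.mk P.asIdeal (((z.val : ℕ) : ℤ) : 𝓞 K) =
        ((z.val : ℕ) : 𝓞 K ⧸ P.asIdeal) := by
      rw [Int.cast_natCast]
      exact map_natCast _ _
    rw [h9]
    conv_lhs => rw [← ZMod.natCast_zmod_val z]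
    exact map_natCast e _
  have h9 : (Q.R - n) ^ 2 ∈ P.asIdeal ^ 2 := Ideal.pow_mem_pow hn 2
  rw [h8, Ideal.mem_span_singleton] at h9
  obtain ⟨η, hη⟩ := h9
  -- trace
  have h10 : (q : ℤ) ∣ 2 * (Q.m + n ^ 2) := by
    refine ⟨Algebra.trace ℤ (𝓞 K) η, ?_⟩
    have h11 := congrArg Q.σ hη
    rw [map_pow, map_sub, map_mul, map_natCast, map_intCast, Q.hσR] at h11
    have h12 : ((2 * (Q.m + n ^ 2) : ℤ) : 𝓞 K) =
        ((q * Algebra.trace ℤ (𝓞 K) η : ℤ) : 𝓞 K) := by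
      push_cast
      rw [Q.hT, ← Q.hR]
      linear_combination hη + h11
    exact_mod_cast h12
  -- norm
  have h11 : (q : ℤ) ∣ n ^ 2 - Q.m := by
    by_contra hc
    have h12 : ((n ^ 2 - Q.m : ℤ) : 𝓞 K) ∈ P.asIdeal := by
      have e : ((n ^ 2 - Q.m : ℤ) : 𝓞 K) = (Q.R - n) * (-Q.R - n) := by
        push_cast
        rw [← Q.hR]
        ring
      rw [e]
      exact P.asIdeal.mul_mem_right _ hn
    have hcop : IsCoprime (q : ℤ) (n ^ 2 - Q.m) :=
      (Nat.prime_iff_prime_int.1 hq).coprime_iff_not_dvd.2 hc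
    obtain ⟨a, b, hab⟩ := hcop
    apply one_notMem P
    have e : (1 : 𝓞 K) = a * q + b * ((n ^ 2 - Q.m : ℤ) : 𝓞 K) := by
      have := congrArg (fun w : ℤ => (w : 𝓞 K)) hab
      push_cast at this ⊢
      exact this.symm
    rw [e]
    exact P.asIdeal.add_mem (P.asIdeal.mul_mem_left _ hP) (P.asIdeal.mul_mem_left _ h12)
  have h12 : (q : ℤ) ∣ 4 * Q.m := by
    have e : 4 * Q.m = 2 * (Q.m + n ^ 2) - 2 * (n ^ 2 - Q.m) := by ring
    rw [e]
    exact dvd_sub h10 (h11.mul_left 2)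
  rcases (Nat.prime_iff_prime_int.1 hq).dvd_or_dvd h12 with h | h
  · have h13 : q ∣ 2 ^ 2 := by exact_mod_cast h
    exact hq2 ((Nat.prime_dvd_prime_iff_eq hq Nat.prime_two).1 (hq.dvd_of_dvd_pow h13))
  · exact hqm h

end Pool.Agent.H105.EQ
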