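import Pool.Agent.H105.EQ.Two

/-!
# Even exponents over quadratic fields: squares at the primes above two
-/

set_option autoImplicit false
set_option linter.all false

namespace Pool.Agent.H105.EQ

open NumberField IsDedekindDomain Polynomial WithZero

theorem int_two (n : ℤ) (hn : n ≠ 0) : ∃ (k : ℕ) (n' : ℤ), n = 2 ^ k * n' ∧ Odd n' := by
  induction h : n.natAbs using Nat.strong_induction_on generalizing n with
  | _ N ih =>
    rcases Int.even_or_odd n with he | ho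
    · obtain ⟨m, hm⟩ := he
      have hm0 : m ≠ 0 := by rintro rfl; apply hn; rw [hm]; rfl
      obtain ⟨k, n', h1, h2⟩ := ih m.natAbs (by omega) m hm0 rfl
      exact ⟨k + 1, n', by rw [hm, h1, pow_succ]; ring, h2⟩
    · exact ⟨0, n, by simp, ho⟩

theorem sq_odd {A : ℤ} (h : Odd A) : ∃ k : ℤ, A ^ 2 = 8 * k + 1 := by
  have h1 := Int.sq_mod_four_eq_one_of_odd h
  obtain ⟨a, rfl⟩ := h
  rcases Int.even_or_odd a with ⟨b, rfl⟩ | ⟨b, rfl⟩
  · exact ⟨2 * b ^ 2 + b, by ring⟩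
  · exact ⟨2 * b ^ 2 + 3 * b + 1, by ring⟩

theorem four_dvd_of {A B b : ℤ} {k : ℕ} (hA : Odd A) (h : A * B = 2 ^ k * b) : (2 : ℤ) ^ k ∣ B := by
  have hc : IsCoprime ((2 : ℤ) ^ k) A := by
    apply IsCoprime.pow_left
    obtain ⟨a, rfl⟩ := hA
    exact ⟨-a, 1, by ring⟩
  exact hc.dvd_of_dvd_mul_left ⟨b, h⟩

theorem int0 {A B N m a b : ℤ} (h1 : A ^ 2 + m * B ^ 2 = N + 8 * a) (h2 : 2 * (A * B) = 8 * b)
    (hN : Odd N) (hm : m % 4 = 2 ∨ m % 4 = 3) :
    8 ∣ N - 1 ∨ (m % 4 = 3 ∧ 8 ∣ N - m) := by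
  have h3 : A * B = 2 ^ 2 * b := by linarith
  rcases Int.even_or_odd A with hA | hA
  · rcases Int.even_or_odd B with hB | hB
    · exfalso
      obtain ⟨x, hx⟩ := hA
      obtain ⟨y, hy⟩ := hB
      obtain ⟨z, hz⟩ := hN
      rw [hx, hy, hz] at h1
      have : 4 * (x ^ 2 + m * y ^ 2) = 2 * z + 1 + 8 * a := by linarith
      omega
    · have h4 := four_dvd_of (A := B) (B := A) (b := b) (k := 2) hB (by linarith)
      obtain ⟨x, hx⟩ := h4
      obtain ⟨y, hy⟩ := sq_odd hB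
      have h5 : N - m = 8 * (2 * x ^ 2 + m * y - a) := by
        rw [hy, hx] at h1
        linarith
      refine Or.inr ⟨?_, ⟨_, h5⟩⟩
      rcases hm with hm | hm
      · exfalso
        obtain ⟨z, hz⟩ := hN
        omega
      · exact hm
  · have h4 := four_dvd_of (k := 2) hA h3
    obtain ⟨x, hx⟩ := h4
    obtain ⟨y, hy⟩ := sq_odd hA
    refine Or.inl ⟨y + 2 * m * x ^ 2 - a, ?_⟩
    rw [hy, hx] at h1
    linarith

theorem int1 {A B N m a b : ℤ} (h1 : A ^ 2 + m * B ^ 2 = 2 * N + 16 * a)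
    (h2 : 2 * (A * B) = 16 * b) (hN : Odd N) (hm : m % 4 = 2 ∨ m % 4 = 3) :
    m % 4 = 2 ∧ 8 ∣ N - m / 2 := by
  have h3 : A * B = 2 ^ 3 * b := by linarith
  rcases Int.even_or_odd A with hA | hA
  · rcases Int.even_or_odd B with hB | hB
    · exfalso
      obtain ⟨x, hx⟩ := hA
      obtain ⟨y, hy⟩ := hB
      obtain ⟨z, hz⟩ := hN
      rw [hx, hy, hz] at h1
      have : 4 * (x ^ 2 + m * y ^ 2) = 2 * (2 * z + 1) + 16 * a := by linarith
      omega
    · have h4 := four_dvd_of (A := B) (B := A) (b := b) (k := 3) hB (by linarith)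
      obtain ⟨x, hx⟩ := h4
      obtain ⟨y, hy⟩ := sq_odd hB
      have h5 : m = 2 * N + 16 * a - 64 * x ^ 2 - 8 * (m * y) := by
        rw [hy, hx] at h1
        linarith
      obtain ⟨u, hu⟩ : ∃ u, u = m * y := ⟨_, rfl⟩
      obtain ⟨w, hw⟩ : ∃ w, w = x ^ 2 := ⟨_, rfl⟩
      rw [← hu, ← hw] at h5
      have h6 : m % 4 = 2 := by
        rcases hm with hm | hm
        · exact hm
        · exfalso; omega
      refine ⟨h6, ?_⟩
      obtain ⟨m', hm'⟩ : ∃ m', m = 2 * m' := ⟨m / 2, by omega⟩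
      have h7 : m / 2 = m' := by omega
      rw [h7]
      refine ⟨4 * w - a + m' * y, ?_⟩
      rw [hm'] at hu
      have h8 : u = 2 * (m' * y) := by rw [hu]; ring
      omega
  · exfalso
    have h4 := four_dvd_of (k := 3) hA h3
    obtain ⟨x, hx⟩ := h4
    obtain ⟨y, hy⟩ := sq_odd hA
    rw [hy, hx] at h1
    have : 8 * y + 1 + 64 * (m * x ^ 2) = 2 * N + 16 * a := by linarith
    omega

variable {K : Type} [Field K] [NumberField K]

theorem disc_sq (Q : QD K) (g : 𝓞 K) (j : ℤ)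
    (hj : Algebra.trace ℤ (𝓞 K) g ^ 2 - 4 * Algebra.norm ℤ g = j) :
    (g - Q.σ g) ^ 2 = (j : 𝓞 K) := by
  rw [← hj]
  push_cast
  rw [Q.hN, Q.hT]
  ring

/-- the integers are `ℤ + ℤ R` -/
theorem rep (Q : QD K) (hm : Q.m % 4 = 2 ∨ Q.m % 4 = 3) (g : 𝓞 K) :
    ∃ A B : ℤ, g = A + B * Q.R := by
  obtain ⟨j, hj⟩ := Q.hD g
  obtain ⟨T, hTd⟩ : ∃ T : ℤ, T = Algebra.trace ℤ (𝓞 K) g := ⟨_, rfl⟩
  obtain ⟨N, hNd⟩ : ∃ N : ℤ, N = Algebra.norm ℤ g := ⟨_, rfl⟩
  have h1 := Q.hT g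
  have h4 : ∃ A i : ℤ, T = 2 * A ∧ T ^ 2 - 4 * N = 4 * i ^ 2 * Q.m := by
    rcases Q.hm with hD | hD
    · rw [hD, ← hTd, ← hNd] at hj
      rcases Int.even_or_odd j with ⟨i, hi⟩ | hjo
      · have h5 : T ^ 2 - 4 * N = 4 * i ^ 2 * Q.m := by rw [hj, hi]; ring
        rcases Int.even_or_odd T with ⟨A, hA⟩ | hTo
        · exact ⟨A, i, by rw [hA]; ring, h5⟩
        · exfalso
          obtain ⟨k, hk⟩ := sq_odd hTo
          rw [hk] at h5
          have : 8 * k + 1 - 4 * N = 4 * (i ^ 2 * Q.m) := by linarith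
          omega
      · exfalso
        obtain ⟨k, hk⟩ := sq_odd hjo
        rcases Int.even_or_odd T with ⟨A, hA⟩ | hTo
        · rw [hk, hA] at hj
          have : 4 * (A ^ 2) - 4 * N = 8 * (k * Q.m) + Q.m := by linarith
          omega
        · obtain ⟨l, hl⟩ := sq_odd hTo
          rw [hk, hl] at hj
          have : 8 * l + 1 - 4 * N = 8 * (k * Q.m) + Q.m := by linarith
          omega
    · rw [hD, ← hTd, ← hNd] at hj
      have h5 : T ^ 2 - 4 * N = 4 * j ^ 2 * Q.m := by rw [hj]; ring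
      rcases Int.even_or_odd T with ⟨A, hA⟩ | hTo
      · exact ⟨A, j, by rw [hA]; ring, h5⟩
      · exfalso
        obtain ⟨k, hk⟩ := sq_odd hTo
        rw [hk] at h5
        have : 8 * k + 1 - 4 * N = 4 * (j ^ 2 * Q.m) := by linarith
        omega
  obtain ⟨A, i, hA, hi⟩ := h4
  have h5 := disc_sq Q g (4 * i ^ 2 * Q.m) (by rw [← hTd, ← hNd]; exact hi)
  have h6 : (g - Q.σ g - 2 * i * Q.R) * (g - Q.σ g + 2 * i * Q.R) = 0 := by
    have h7 : (g - Q.σ g - 2 * i * Q.R) * (g - Q.σ g + 2 * i * Q.R) =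
        (g - Q.σ g) ^ 2 - 4 * i ^ 2 * Q.R ^ 2 := by ring
    rw [h7, h5, Q.hR]
    push_cast
    ring
  rw [← hTd, hA] at h1
  push_cast at h1
  have h20 : (2 : 𝓞 K) ≠ 0 := two_ne_zero
  rcases mul_eq_zero.1 h6 with h7 | h7
  · refine ⟨A, i, mul_left_cancel₀ h20 ?_⟩
    linear_combination h7 - h1
  · refine ⟨A, -i, mul_left_cancel₀ h20 ?_⟩
    push_cast
    linear_combination h7 - h1

theorem R_ne (Q : QD K) : Q.R ≠ 0 := by
  intro h
  have h1 := Q.hR
  rw [h] at h1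
  have h2 : Q.m = 0 := by
    have : ((Q.m : ℤ) : 𝓞 K) = 0 := by rw [← h1]; ring
    exact_mod_cast this
  have := Q.sf
  rw [h2] at this
  exact not_squarefree_zero this

theorem indep (Q : QD K) {A B A' B' : ℤ} (h : (A + B * Q.R : 𝓞 K) = A' + B' * Q.R) :
    A = A' ∧ B = B' := by
  have h1 := congrArg Q.σ h
  simp only [map_add, map_mul, map_intCast, Q.hσR] at h1
  have h20 : (2 : 𝓞 K) ≠ 0 := two_ne_zero
  have h2 : (A : 𝓞 K) = A' := by
    apply mul_left_cancel₀ h20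
    linear_combination h + h1
  have h3 : (B : 𝓞 K) = B' := by
    apply mul_right_cancel₀ (R_ne Q)
    rw [h2] at h
    exact add_left_cancel h
  exact ⟨by exact_mod_cast h2, by exact_mod_cast h3⟩

/-- divisibility by powers of two in the ramified case -/
theorem ram_dvd (Q : QD K) {P : HeightOneSpectrum (𝓞 K)} (l : Loc P 2) {h : 𝓞 K} {k : ℕ}
    (hh : P.valuation K (algebraMap (𝓞 K) K h) ≤ exp (-(2 * k : ℤ))) : ∃ g, h = 2 ^ k * g := by
  have h1 : (2 : 𝓞 K) ∈ P.asIdeal ^ 2 := by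
    apply mem_pow_of_L
    · rw [map_ofNat]; exact two_ne
    · rw [map_ofNat, l.he]
  have h2 : P.asIdeal ^ 2 ∣ Ideal.span {(2 : 𝓞 K)} := by
    rw [Ideal.dvd_span_singleton]
    exact h1
  obtain ⟨I, hI⟩ := h2
  have h3 := congrArg Ideal.absNorm hI
  rw [absNorm_two Q, map_mul, map_pow, l.hn] at h3
  have h4 : Ideal.absNorm I = 1 := by omega
  have h5 : I = ⊤ := Ideal.absNorm_eq_one_iff.1 h4
  have h6 : P.asIdeal ^ 2 = Ideal.span {(2 : 𝓞 K)} := by
    rw [hI, h5, Ideal.mul_top]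
  have h7 : h ∈ P.asIdeal ^ (2 * k) := by
    rw [mem_pow_iff]
    push_cast
    exact hh
  rw [pow_mul, h6, Ideal.span_singleton_pow, Ideal.mem_span_singleton] at h7
  exact h7

/-- `γ ^ 2 = N + (a multiple of 8)` or `2 N + (a multiple of 16)`, ramified case -/
theorem ram_sq (Q : QD K) (hm : Q.m % 4 = 2 ∨ Q.m % 4 = 3) {P : HeightOneSpectrum (𝓞 K)}
    (l : Loc P 2) {x : K} {N : ℤ} {k : ℕ}
    (hx : P.valuation K (x ^ 2 - N) ≤ exp (-(2 * k : ℤ))) :
    ∃ A B a b : ℤ, A ^ 2 + Q.m * B ^ 2 = N + 2 ^ k * a ∧ 2 * (A * B) = 2 ^ k * b := by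
  have hN : P.valuation K ((N : ℤ) : K) ≤ 1 := by
    have := HeightOneSpectrum.valuation_le_one (K := K) P (N : 𝓞 K)
    have e : algebraMap (𝓞 K) K (N : 𝓞 K) = (N : K) := map_intCast _ _
    rw [← e]
    exact this
  have hk1 : exp (-(2 * k : ℤ)) ≤ (1 : ℤᵐ⁰) := by
    rw [← exp_zero, exp_le_exp]; omega
  have hx1 : P.valuation K x ≤ 1 := by
    by_contra hcon
    push Not at hcon
    have h1 : 1 < P.valuation K (x ^ 2) := by
      rw [map_pow]
      exact one_lt_pow₀ hcon two_ne_zero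
    have h2 : P.valuation K (x ^ 2) ≤ 1 := by
      have e : x ^ 2 = (x ^ 2 - N) + N := by ring
      rw [e]
      exact (Valuation.map_add _ _ _).trans (max_le (hx.trans hk1) hN)
    exact absurd h1 (not_lt.2 h2)
  obtain ⟨g, hg⟩ := HeightOneSpectrum.exists_valuation_sub_lt_of_integer P hx1
    (Units.mk0 (exp (-(2 * k : ℤ)) : ℤᵐ⁰) exp_ne_zero)
  have hg' : P.valuation K (algebraMap (𝓞 K) K g - x) < exp (-(2 * k : ℤ)) := hg
  have hg1 : P.valuation K (algebraMap (𝓞 K) K g) ≤ 1 := HeightOneSpectrum.valuation_le_one P g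
  have h3 : P.valuation K (algebraMap (𝓞 K) K (g ^ 2 - (N : 𝓞 K))) ≤ exp (-(2 * k : ℤ)) := by
    have e : algebraMap (𝓞 K) K (g ^ 2 - (N : 𝓞 K)) =
        (algebraMap (𝓞 K) K g - x) * (algebraMap (𝓞 K) K g + x) + (x ^ 2 - N) := by
      rw [map_sub, map_pow, map_intCast]
      ring
    rw [e]
    refine (Valuation.map_add _ _ _).trans (max_le ?_ hx)
    rw [map_mul]
    have h4 : P.valuation K (algebraMap (𝓞 K) K g + x) ≤ 1 :=
      (Valuation.map_add _ _ _).trans (max_le hg1 hx1)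
    calc _ ≤ exp (-(2 * k : ℤ)) * 1 := mul_le_mul' hg'.le h4
      _ = _ := mul_one _
  obtain ⟨h, hh⟩ := ram_dvd Q l h3
  obtain ⟨A, B, hAB⟩ := rep Q hm g
  obtain ⟨a, b, hab⟩ := rep Q hm h
  have h5 : ((A ^ 2 + Q.m * B ^ 2 : ℤ) : 𝓞 K) + ((2 * (A * B) : ℤ) : 𝓞 K) * Q.R =
      ((N + 2 ^ k * a : ℤ) : 𝓞 K) + ((2 ^ k * b : ℤ) : 𝓞 K) * Q.R := by
    rw [hAB, hab] at hh
    have h6 := Q.hR
    push_cast
    linear_combination hh - (B : 𝓞 K) ^ 2 * h6
  obtain ⟨h6, h7⟩ := indep Q h5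
  exact ⟨A, B, a, b, h6, h7⟩

/-- `8` divides an integer of valuation at most `exp (-3)` in the split case -/
theorem eight_dvd {P : HeightOneSpectrum (𝓞 K)} (l : Loc P 1) {n : ℤ}
    (h : P.valuation K (n : K) ≤ exp (-3)) : (8 : ℤ) ∣ n := by
  by_cases hn : n = 0
  · rw [hn]; exact dvd_zero 8
  obtain ⟨k, n', h1, h2⟩ := int_two n hn
  have hn' : (n' : K) ≠ 0 := by
    intro h0
    have : n' = 0 := by exact_mod_cast h0
    rw [this] at h2
    simp at h2
  have hnK : (n : K) ≠ 0 := by exact_mod_cast hn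
  have h3 : L (P.valuation K) (n : K) = -k := by
    have e : (n : K) = 2 ^ k * n' := by rw [h1]; push_cast; ring
    rw [e, L_mul (pow_ne_zero k two_ne) hn', L_pow, l.he, (eq_one_iff hn').1 (V_odd l.h2 h2)]
    push_cast
    ring
  rw [V_eq hnK, exp_le_exp, h3] at h
  have h4 : 3 ≤ k := by omega
  rw [h1]
  exact Dvd.dvd.mul_right (by
    have : (8 : ℤ) = 2 ^ 3 := by norm_num
    rw [this]
    exact pow_dvd_pow 2 h4) _

theorem le_exp_of_lt {V : Valuation K ℤᵐ⁰} {x : K} (h : V x < 1) : V x ≤ exp (-1) := by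
  by_cases hx : x = 0
  · rw [hx, map_zero]; exact zero_le
  · rw [V_eq hx, exp_le_exp]
    have := (lt_one_iff hx).1 h
    omega

/-- squares of units are `1` modulo `8` in the split case -/
theorem split_sq {P : HeightOneSpectrum (𝓞 K)} (l : Loc P 1) {x : K}
    (hx : P.valuation K x = 1) : P.valuation K (x ^ 2 - 1) ≤ exp (-3) := by
  have h2 : P.valuation K (2 : K) = exp (-1) := by rw [V_eq two_ne, l.he]; rfl
  have h1 := le_exp_of_lt (l.sub_one hx)
  obtain ⟨y, hy⟩ : ∃ y : K, x = 1 + 2 * y := ⟨(x - 1) / 2, by field_simp; ring⟩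
  have hy1 : P.valuation K y ≤ 1 := by
    have e : x - 1 = 2 * y := by rw [hy]; ring
    rw [e, map_mul, h2] at h1
    by_contra hcon
    push Not at hcon
    have : exp (-1 : ℤ) * 1 < exp (-1 : ℤ) * P.valuation K y :=
      mul_lt_mul_of_pos_left hcon exp_pos
    rw [mul_one] at this
    exact absurd h1 (not_le.2 this)
  have h3 : P.valuation K (y * (y + 1)) < 1 := by
    rw [map_mul]
    rcases hy1.lt_or_eq with h | h
    · have h4 : P.valuation K (y + 1) ≤ 1 :=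
        (Valuation.map_add _ _ _).trans (max_le hy1 (map_one _).le)
      calc _ ≤ P.valuation K y * 1 := mul_le_mul' le_rfl h4
        _ < 1 := by rw [mul_one]; exact h
    · rw [h, one_mul]
      have e : y + 1 = (y - 1) + 2 := by ring
      rw [e]
      exact (Valuation.map_add _ _ _).trans_lt (max_lt (l.sub_one h) (V_two_lt l.h2))
  have e : x ^ 2 - 1 = 2 * 2 * (y * (y + 1)) := by rw [hy]; ring
  rw [e, map_mul, map_mul, h2]
  calc exp (-1 : ℤ) * exp (-1 : ℤ) * P.valuation K (y * (y + 1)) ≤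
      exp (-1 : ℤ) * exp (-1 : ℤ) * exp (-1 : ℤ) := mul_le_mul' le_rfl (le_exp_of_lt h3)
    _ = exp (-3) := by rw [← exp_add, ← exp_add]; norm_num

/-- the classes of `p s'` modulo `8` -/
def Cls (m : ℤ) (e : ℕ) (N : ℤ) : Prop := (Even e ∧ (8 ∣ N - 1 ∨ (m % 4 = 3 ∧ 8 ∣ N - m))) ∨
  (Odd e ∧ m % 4 = 2 ∧ 8 ∣ N - m / 2)

theorem local_main (Q : QD K) (hQ : Q.m % 8 ≠ 5) {P : HeightOneSpectrum (𝓞 K)}
    (h2 : (2 : 𝓞 K) ∈ P.asIdeal) {p s s' : ℤ} {e : ℕ} (hp : Odd p) (hs : s = 2 ^ e * s')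
    (hs' : Odd s') {γ E : K} (hγ : γ ≠ 0) (hE : P.valuation K E ≤ exp (-6))
    (h : γ ^ 2 = s * (p + E)) : Cls Q.m e (p * s') := by
  have hm4 : Q.m % 4 ≠ 0 := by
    intro h0
    have h1 := Q.sf
    have h3 : (2 : ℤ) * 2 ∣ Q.m := by omega
    have h4 := h1 2 h3
    exact absurd h4 (by norm_num [Int.isUnit_iff])
  have hs'K : P.valuation K (s' : K) = 1 := V_odd h2 hs'
  have hsp : Odd (p * s') := hp.mul hs'
  have hVps : P.valuation K ((p * s' : ℤ) : K) = 1 := V_odd h2 hsp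
  obtain ⟨j, δ, hj, hδ⟩ : ∃ j δ : ℕ, e = 2 * j + δ ∧ (δ = 0 ∨ δ = 1) :=
    ⟨e / 2, e % 2, by omega, by omega⟩
  have hpow : (2 : K) ^ j ≠ 0 := pow_ne_zero j two_ne
  have hx : (γ / 2 ^ j) ^ 2 = 2 ^ δ * s' * (p + E) := by
    rw [div_pow, h, hs, hj]
    field_simp
    push_cast
    ring
  obtain ⟨x, hxd⟩ : ∃ x : K, x = γ / 2 ^ j := ⟨_, rfl⟩
  rw [← hxd] at hx
  have hsE : P.valuation K (s' * E) ≤ exp (-6) := by
    rw [map_mul, hs'K, one_mul]
    exact hE
  by_cases hm : Q.m % 4 = 2 ∨ Q.m % 4 = 3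
  · have l := loc_ram Q hm P h2
    have hV2 : P.valuation K (2 : K) = exp (-2) := by rw [V_eq two_ne, l.he]; rfl
    rcases hδ with rfl | rfl
    · have h3 : P.valuation K (x ^ 2 - ((p * s' : ℤ) : K)) ≤ exp (-(2 * (3 : ℕ) : ℤ)) := by
        have e : x ^ 2 - ((p * s' : ℤ) : K) = s' * E := by
          rw [hx]; push_cast; ring
        rw [e]
        exact hsE
      obtain ⟨A, B, a, b, h4, h5⟩ := ram_sq Q hm l h3
      norm_num at h4 h5
      exact Or.inl ⟨⟨j, by omega⟩, int0 (A := A) (B := B) (a := a) (b := b) h4 h5 hsp hm⟩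
    · have h3 : P.valuation K (x ^ 2 - ((2 * (p * s') : ℤ) : K)) ≤ exp (-(2 * (4 : ℕ) : ℤ)) := by
        have e : x ^ 2 - ((2 * (p * s') : ℤ) : K) = 2 * (s' * E) := by
          rw [hx]; push_cast; ring
        rw [e, map_mul, hV2]
        calc exp (-2 : ℤ) * P.valuation K (s' * E) ≤ exp (-2 : ℤ) * exp (-6 : ℤ) :=
            mul_le_mul' le_rfl hsE
          _ = _ := by rw [← exp_add]; norm_num
      obtain ⟨A, B, a, b, h4, h5⟩ := ram_sq Q hm l h3
      norm_num at h4 h5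
      exact Or.inr ⟨⟨j, by omega⟩, int1 (A := A) (B := B) (a := a) (b := b) h4 h5 hsp hm⟩
  · have hm8 : Q.m % 8 = 1 := by omega
    have l := loc_split Q hm8 P h2
    have hx0 : x ≠ 0 := by rw [hxd]; exact div_ne_zero hγ hpow
    have hu : P.valuation K (s' * (p + E)) = 1 := by
      have e : (s' : K) * (p + E) = ((p * s' : ℤ) : K) + s' * E := by push_cast; ring
      rw [e, ← hVps]
      apply Valuation.map_add_eq_of_lt_left
      rw [hVps]
      refine hsE.trans_lt ?_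
      rw [← exp_zero, exp_lt_exp]
      norm_num
    have hu0 : (s' : K) * (p + E) ≠ 0 := by
      intro h0
      rw [h0, map_zero] at hu
      exact zero_ne_one hu
    have h3 : 2 * L (P.valuation K) x = -δ := by
      have h4 := congrArg (L (P.valuation K)) hx
      rw [mul_assoc, L_pow, L_mul (pow_ne_zero δ two_ne) hu0, L_pow, l.he,
        (eq_one_iff hu0).1 hu] at h4
      push_cast at h4
      linarith
    have hδ0 : δ = 0 := by omega
    subst hδ0
    have hx1 : P.valuation K x = 1 := by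
      rw [eq_one_iff hx0]
      omega
    have h4 := split_sq l hx1
    refine Or.inl ⟨⟨j, by omega⟩, Or.inl (eight_dvd l ?_)⟩
    have e : ((p * s' - 1 : ℤ) : K) = (x ^ 2 - 1) - s' * E := by
      rw [hx]; push_cast; ring
    rw [e]
    refine (Valuation.map_sub _ _ _).trans (max_le h4 (hsE.trans ?_))
    rw [exp_le_exp]
    norm_num

end Pool.Agent.H105.EQ
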