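import Pool.Agent.H105.EQ.Val

/-!
# Even exponents over quadratic fields: the primes above `p`
-/

set_option autoImplicit false

namespace Pool.Agent.H105.EQ

open WithZero Finset

variable {F : Type} [Field F] {V : Valuation F ℤᵐ⁰}

theorem one_add_pow {R : Type} [CommRing R] (x : R) (i : ℕ) :
    ∃ h : R, (1 + x) ^ i = 1 + i * x + x ^ 2 * h := by
  induction i with
  | zero => exact ⟨0, by simp⟩
  | succ n ih =>
    obtain ⟨h, hh⟩ := ih
    refine ⟨h * (1 + x) + n, ?_⟩
    rw [pow_succ, hh]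
    push_cast
    ring

theorem lt_one_of_pow {r : F} {p : ℕ} (hp : p.Prime) (hr : V r ≤ 1) (hpV : V (p : F) < 1)
    (h : V (r ^ p - 1) < 1) : V (r - 1) < 1 := by
  have hr1 : V (r - 1) ≤ 1 := by
    refine (V.map_sub _ _).trans ?_
    simp [hr]
  obtain ⟨η, hη⟩ := exists_add_pow_prime_eq hp (⟨r - 1, hr1⟩ : V.integer) 1
  have h1 := congrArg (fun w : V.integer => (w : F)) hη
  simp only [Subring.coe_add, Subring.coe_pow, Subring.coe_one, Subring.coe_mul,
    sub_add_cancel, one_pow] at h1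
  have h2 : ((p : V.integer) : F) = (p : F) := by simp
  rw [h2] at h1
  have h3 : (r - 1) ^ p = (r ^ p - 1) - p * ((r - 1) * 1 * η) := by
    rw [h1]
    ring
  have h4 : V ((r - 1) ^ p) < 1 := by
    rw [h3]
    refine (V.map_sub _ _).trans_lt (max_lt h ?_)
    rw [map_mul]
    have h5 : V ((r - 1) * 1 * η) ≤ 1 := by
      rw [mul_one, map_mul]
      exact mul_le_one' hr1 η.2
    calc V (p : F) * V ((r - 1) * 1 * η) ≤ V (p : F) * 1 := by gcongr
      _ < 1 := by rw [mul_one]; exact hpV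
  by_contra hcon
  push Not at hcon
  rw [map_pow] at h4
  exact absurd h4 (not_lt.2 (one_le_pow₀ hcon))

theorem sum_eq_p {r : F} {p : ℕ} (hp2 : Odd p)
    (hpV : V (p : F) = exp (-1)) (h : V (r - 1) < 1) (h0 : r - 1 ≠ 0) :
    V (∑ j ∈ range p, r ^ j) = V (p : F) := by
  obtain ⟨ρ, hρ⟩ : ∃ ρ : V.integer, (ρ : F) = r - 1 := ⟨⟨r - 1, h.le⟩, rfl⟩
  choose g hg using fun i : ℕ => one_add_pow ρ i
  obtain ⟨k, hk⟩ := hp2
  have h1 : (∑ j ∈ range p, (1 + ρ) ^ j) = p + ((p : V.integer) * k * ρ + ρ ^ 2 * ∑ j ∈ range p, g j) := by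
    rw [sum_congr rfl fun j _ => hg j, sum_add_distrib, sum_add_distrib, ← sum_mul, ← mul_sum]
    have h2 : (∑ j ∈ range p, (j : V.integer)) = (p : V.integer) * k := by
      have h3 : ∑ j ∈ range p, j = p * k := by
        have h4 := Finset.sum_range_id_mul_two p
        have h5 : p - 1 = 2 * k := by omega
        rw [h5] at h4
        have : (∑ j ∈ range p, j) * 2 = (p * k) * 2 := by rw [h4]; ring
        exact Nat.eq_of_mul_eq_mul_right two_pos this
      rw [← Nat.cast_sum, h3, Nat.cast_mul]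
    rw [h2]
    simp
    ring
  have h2 : (∑ j ∈ range p, r ^ j) =
      p + (((p : F) * k * (r - 1)) + (r - 1) ^ 2 * ((∑ j ∈ range p, g j : V.integer) : F)) := by
    have h3 := congrArg (fun w : V.integer => (w : F)) h1
    simp only [Subring.coe_add, Subring.coe_pow, Subring.coe_mul, hρ,
      Subring.coe_natCast] at h3
    rw [← h3]
    have h4 : ((∑ j ∈ range p, (1 + ρ) ^ j : V.integer) : F) = ∑ j ∈ range p, (1 + (ρ : F)) ^ j := by
      push_cast
      rfl
    rw [h4, hρ]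
    refine sum_congr rfl fun j _ => ?_
    ring_nf
  rw [h2]
  apply Valuation.map_add_eq_of_lt_left
  have h5 : V (r - 1) ≤ exp (-1) := by
    rw [V_eq h0, exp_le_exp]
    have := (lt_one_iff h0).1 h
    omega
  refine (V.map_add _ _).trans_lt (max_lt ?_ ?_)
  · rw [map_mul, map_mul]
    have h6 : V (k : F) ≤ 1 := natCast_mem V.integer k
    have h7 : 0 < V (p : F) := by rw [hpV]; exact exp_pos
    calc V (p : F) * V (k : F) * V (r - 1) ≤ V (p : F) * 1 * V (r - 1) := by gcongr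
      _ < V (p : F) * 1 * 1 := by
        rw [mul_one]
        exact mul_lt_mul_of_pos_left h h7
      _ = V (p : F) := by rw [mul_one, mul_one]
  · rw [map_mul, map_pow]
    have h6 : V ((∑ j ∈ range p, g j : V.integer) : F) ≤ 1 := (∑ j ∈ range p, g j : V.integer).2
    calc V (r - 1) ^ 2 * V ((∑ j ∈ range p, g j : V.integer) : F) ≤ exp (-1) ^ 2 * 1 := by gcongr
      _ = exp (-2) := by rw [mul_one]; rfl
      _ < V (p : F) := by rw [hpV, exp_lt_exp]; norm_num

/-- the valuation of `a ^ 2 - ε b ^ 2` is odd at an unramified prime above `p` dividing `t` -/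
theorem Sol.odd_at {p : ℕ} {a b t ε : F} (s : Sol p a b t ε) (hp : p.Prime) (hp2 : Odd p)
    (hpV : V (p : F) = exp (-1)) (h : V t < V a ∨ V t < V b) :
    ∃ k : ℤ, L V (a ^ 2 - ε * b ^ 2) = 2 * k + 1 := by
  have hab := s.same hp.ne_zero h
  have hL : L V a = L V b := (eq_iff s.ha s.hb).1 hab
  have hr : V (ratio a b ε) = 1 := by
    rw [eq_one_iff s.ratio_ne, s.L_ratio, hL]; ring
  have htb : L V t < L V b := by
    rw [← lt_iff s.ht s.hb]
    rcases h with h | h
    · rwa [← hab]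
    · exact h
  have h1 : V (ratio a b ε ^ p - 1) < 1 := by
    rw [lt_one_iff (s.rpow_ne hp2), s.ratio_pow hp2,
      L_div (pow_ne_zero _ s.ht) (mul_ne_zero s.eps (pow_ne_zero _ s.hb)),
      L_mul s.eps (pow_ne_zero _ s.hb), s.Leps, L_pow, L_pow]
    have hpp : (0 : ℤ) < ((2 * p : ℕ) : ℤ) := by have := hp.pos; exact_mod_cast (by omega : 0 < 2 * p)
    nlinarith
  have hp1 : V (p : F) < 1 := by rw [hpV, ← exp_zero, exp_lt_exp]; norm_num
  have h2 := lt_one_of_pow hp hr.le hp1 h1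
  have h3 := sum_eq_p hp2 hpV h2 (s.r1_ne hp2)
  have hG : L V (∑ j ∈ range p, ratio a b ε ^ j) = -1 := by
    unfold L
    rw [h3, hpV, log_exp]
  have h4 := s.L_fac (V := V) hp2
  have h5 := s.L_c (V := V) hp2
  exact ⟨L V b + (p * L V t - p * L V b), by linarith⟩

end Pool.Agent.H105.EQ
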