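import Pool.Agent.H105.EQ.Glob
import Pool.Agent.H105.EQ.ValP

/-!
# Even exponents over quadratic fields: quadratic residues modulo `p`
-/

set_option autoImplicit false
set_option linter.all false

namespace Pool.Agent.H105.EQ

open NumberField IsDedekindDomain Polynomial WithZero Finset

section

variable {F : Type} [Field F] {V : Valuation F ℤᵐ⁰}

theorem sum_sub_one_lt {r : F} {p : ℕ} (hp : 0 < p) (hr : V r < 1) :
    V ((∑ j ∈ range p, r ^ j) - 1) < 1 := by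
  obtain ⟨k, rfl⟩ : ∃ k, p = k + 1 := ⟨p - 1, by omega⟩
  rw [sum_range_succ', pow_zero, add_sub_cancel_right]
  refine V.map_sum_lt one_ne_zero fun j _ => ?_
  rw [map_pow]
  exact pow_lt_one₀ zero_le hr (by omega)

/-- at a prime above `p` not dividing `t` the sum is a square times a `1`-unit -/
theorem Sol.G_sq {p : ℕ} {a b t ε : F} (s : Sol p a b t ε) (hp : p.Prime) (hodd : Odd p)
    (hpV : V (p : F) < 1) (h : ¬ (V t < V a ∧ V t < V b)) :
    ∃ ρ : F, ρ ≠ 0 ∧ V ((∑ j ∈ range p, ratio a b ε ^ j) / ρ ^ 2 - 1) < 1 := by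
  obtain ⟨r, hr⟩ : ∃ r, r = ratio a b ε := ⟨_, rfl⟩
  have hr0 : r ≠ 0 := hr ▸ s.ratio_ne
  obtain ⟨k, hk⟩ := hodd
  rw [← hr]
  rcases lt_trichotomy (V r) 1 with h1 | h1 | h1
  · exact ⟨1, one_ne_zero, by rw [one_pow, div_one]; exact sum_sub_one_lt hp.pos h1⟩
  · -- `r` is a unit
    have hodd : Odd p := ⟨k, hk⟩
    have hab : V a = V b := by
      rw [hr, eq_one_iff s.ratio_ne, s.L_ratio] at h1
      rw [eq_iff s.ha s.hb]
      omega
    have hG := (le_one_iff (s.G_ne hodd)).1 (sum_le_one (V := V) (by rw [← hr, h1]) p)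
    have hfac := s.L_fac (V := V) hodd
    have hr1 : L V (ratio a b ε - 1) ≤ 0 := by
      rw [← le_one_iff (s.r1_ne hodd)]
      refine (V.map_sub _ _).trans ?_
      rw [← hr]
      simp [h1]
    have h3 : V b ≤ V t := by
      by_contra hcon
      push Not at hcon
      exact h ⟨hab ▸ hcon, hcon⟩
    rw [le_iff s.hb s.ht] at h3
    have h4 : (0 : ℤ) ≤ 2 * p * L V t - 2 * p * L V b := by
      have : (0 : ℤ) ≤ 2 * p * (L V t - L V b) := by positivity
      linarith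
    have h5 : L V (ratio a b ε - 1) = 0 := by linarith
    have h6 : V (r - 1) = 1 := by rw [hr, eq_one_iff (s.r1_ne hodd)]; exact h5
    have hr1n : r - 1 ≠ 0 := hr ▸ s.r1_ne hodd
    refine ⟨(r - 1) ^ k, pow_ne_zero k hr1n, ?_⟩
    have e1 : (∑ j ∈ range p, r ^ j) / ((r - 1) ^ k) ^ 2 - 1 =
        ((r ^ p - 1) - (r - 1) ^ p) / (r - 1) ^ p := by
      have h7 : (∑ j ∈ range p, r ^ j) = (r ^ p - 1) / (r - 1) := by
        rw [eq_div_iff hr1n, geom_sum_mul]
      have h8 : (r - 1) ^ p = ((r - 1) ^ k) ^ 2 * (r - 1) := by rw [hk]; ring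
      rw [h7, div_div, mul_comm (r - 1), ← h8, sub_div (r ^ p - 1), div_self (pow_ne_zero p hr1n)]
    rw [e1, map_div₀, map_pow, h6, one_pow, div_one]
    obtain ⟨η, hη⟩ := exists_add_pow_prime_eq hp (⟨r - 1, h6.le⟩ : V.integer) 1
    have h9 := congrArg (fun w : V.integer => (w : F)) hη
    simp only [Subring.coe_add, Subring.coe_pow, Subring.coe_one, Subring.coe_mul,
      sub_add_cancel, one_pow] at h9
    have h10 : ((p : V.integer) : F) = (p : F) := by simp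
    rw [h10] at h9
    have h11 : (r ^ p - 1) - (r - 1) ^ p = p * ((r - 1) * 1 * η) := by
      rw [h9]
      ring
    rw [h11, map_mul]
    have h12 : V ((r - 1) * 1 * η) ≤ 1 := by
      rw [mul_one, map_mul]
      exact mul_le_one' h6.le η.2
    calc V (p : F) * V ((r - 1) * 1 * η) ≤ V (p : F) * 1 := by gcongr
      _ < 1 := by rw [mul_one]; exact hpV
  · refine ⟨r ^ k, pow_ne_zero k hr0, ?_⟩
    have h2 : V r⁻¹ < 1 := by
      rw [map_inv₀]
      exact inv_lt_one_of_one_lt₀ h1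
    have e1 : (∑ j ∈ range p, r ^ j) / (r ^ k) ^ 2 = ∑ j ∈ range p, r⁻¹ ^ j := by
      rw [div_eq_iff (pow_ne_zero 2 (pow_ne_zero k hr0)), sum_mul, ← sum_range_reflect]
      refine sum_congr rfl fun j hj => ?_
      have hj' := mem_range.1 hj
      rw [← pow_mul, inv_pow, eq_comm, inv_mul_eq_iff_eq_mul₀ (pow_ne_zero j hr0), ← pow_add]
      congr 1
      omega
    rw [e1]
    exact sum_sub_one_lt hp.pos h2

end

variable {K : Type} [Field K] [NumberField K]

theorem rep2 (Q : QD K) (g : 𝓞 K) : ∃ A B : ℤ, 2 * g = A + B * Q.R := by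
  obtain ⟨j, hj⟩ := Q.hD g
  have h1 := Q.hT g
  obtain ⟨i, hi⟩ : ∃ i : ℤ, j ^ 2 * NumberField.discr K = i ^ 2 * Q.m := by
    rcases Q.hm with hD | hD
    · exact ⟨j, by rw [hD]⟩
    · exact ⟨2 * j, by rw [hD]; ring⟩
  rw [hi] at hj
  have h5 := disc_sq Q g _ hj
  have h6 : (g - Q.σ g - i * Q.R) * (g - Q.σ g + i * Q.R) = 0 := by
    have h7 : (g - Q.σ g - i * Q.R) * (g - Q.σ g + i * Q.R) =
        (g - Q.σ g) ^ 2 - i ^ 2 * Q.R ^ 2 := by ring
    rw [h7, h5, Q.hR]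
    push_cast
    ring
  rcases mul_eq_zero.1 h6 with h7 | h7
  · refine ⟨Algebra.trace ℤ (𝓞 K) g, i, ?_⟩
    linear_combination h7 - h1
  · refine ⟨Algebra.trace ℤ (𝓞 K) g, -i, ?_⟩
    push_cast
    linear_combination h7 - h1

/-- if `m` is a nonzero square modulo `p`, the residue fields above `p` are prime fields -/
theorem res_int (Q : QD K) {p : ℕ} (hp : p.Prime) (hp2 : p ≠ 2) (hm : IsSquare (Q.m : ZMod p))
    {v : HeightOneSpectrum (𝓞 K)} (hv : (p : 𝓞 K) ∈ v.asIdeal) (g : 𝓞 K) :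
    ∃ n : ℤ, g - n ∈ v.asIdeal := by
  have hodd := hp.odd_of_ne_two hp2
  have : NeZero p := ⟨hp.ne_zero⟩
  have hint : ∀ k : ℤ, (p : ℤ) ∣ k → (k : 𝓞 K) ∈ v.asIdeal := by
    rintro k ⟨l, rfl⟩
    push_cast
    exact v.asIdeal.mul_mem_right _ hv
  obtain ⟨r, hr⟩ := hm
  have h1 : (p : ℤ) ∣ Q.m - (r.val : ℤ) ^ 2 := by
    rw [← ZMod.intCast_zmod_eq_zero_iff_dvd]
    push_cast
    rw [ZMod.natCast_zmod_val, hr]
    ring
  obtain ⟨n, hn⟩ : ∃ n : ℤ, Q.R - n ∈ v.asIdeal := by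
    have h2 : (Q.R - ((r.val : ℤ) : 𝓞 K)) * (Q.R + ((r.val : ℤ) : 𝓞 K)) ∈ v.asIdeal := by
      have e : (Q.R - ((r.val : ℤ) : 𝓞 K)) * (Q.R + ((r.val : ℤ) : 𝓞 K)) =
          ((Q.m - (r.val : ℤ) ^ 2 : ℤ) : 𝓞 K) := by
        push_cast
        rw [← Q.hR]
        ring
      rw [e]
      exact hint _ h1
    rcases v.isPrime.mem_or_mem h2 with h3 | h3
    · exact ⟨_, h3⟩
    · exact ⟨-(r.val : ℤ), by rw [Int.cast_neg, sub_neg_eq_add]; exact h3⟩
  obtain ⟨A, B, hAB⟩ := rep2 Q g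
  obtain ⟨k, hk⟩ := hodd
  refine ⟨(k + 1) * (A + B * n), ?_⟩
  have e : g - (((k + 1) * (A + B * n) : ℤ) : 𝓞 K) =
      (k + 1) * (B * (Q.R - n)) - (p : 𝓞 K) * g := by
    have hp' : (p : 𝓞 K) = 2 * k + 1 := by rw [hk]; push_cast; ring
    rw [hp']
    push_cast
    linear_combination ((k : 𝓞 K) + 1) * hAB
  rw [e]
  exact v.asIdeal.sub_mem (v.asIdeal.mul_mem_left _ (v.asIdeal.mul_mem_left _ hn))
    (v.asIdeal.mul_mem_right _ hv)

/-- a rational integer which is a square times a `1`-unit at a prime above `p` is a square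
modulo `p` -/
theorem qr (Q : QD K) {p : ℕ} [Fact p.Prime] (hp2 : p ≠ 2) (hm : IsSquare (Q.m : ZMod p))
    {v : HeightOneSpectrum (𝓞 K)} (hv : (p : 𝓞 K) ∈ v.asIdeal) {u : ℤ} {x η : K}
    (hη : v.valuation K (η - 1) < 1) (h : x ^ 2 = u * η) : IsSquare (u : ZMod p) := by
  have hp : p.Prime := Fact.out
  have hu : v.valuation K (u : K) ≤ 1 := by
    have := HeightOneSpectrum.valuation_le_one (K := K) v (u : 𝓞 K)
    have e : algebraMap (𝓞 K) K (u : 𝓞 K) = (u : K) := map_intCast _ _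
    rw [← e]
    exact this
  have hx2 : v.valuation K (x ^ 2 - u) < 1 := by
    have e : x ^ 2 - u = u * (η - 1) := by rw [h]; ring
    rw [e, map_mul]
    calc v.valuation K (u : K) * v.valuation K (η - 1) ≤ 1 * v.valuation K (η - 1) := by gcongr
      _ < 1 := by rw [one_mul]; exact hη
  have hx : v.valuation K x ≤ 1 := by
    by_contra hcon
    push Not at hcon
    have h1 : 1 < v.valuation K (x ^ 2) := by
      rw [map_pow]
      exact one_lt_pow₀ hcon two_ne_zero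
    have h2 : v.valuation K (x ^ 2) ≤ 1 := by
      have e : x ^ 2 = (x ^ 2 - u) + u := by ring
      rw [e]
      exact (Valuation.map_add _ _ _).trans (max_le hx2.le hu)
    exact absurd h1 (not_lt.2 h2)
  obtain ⟨g, hg⟩ := HeightOneSpectrum.exists_valuation_sub_lt_of_integer v hx 1
  have hg' : v.valuation K (algebraMap (𝓞 K) K g - x) < 1 := hg
  have hg1 : v.valuation K (algebraMap (𝓞 K) K g) ≤ 1 := HeightOneSpectrum.valuation_le_one v g
  have h3 : g ^ 2 - (u : 𝓞 K) ∈ v.asIdeal := by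
    have e : algebraMap (𝓞 K) K (g ^ 2 - (u : 𝓞 K)) =
        (algebraMap (𝓞 K) K g - x) * (algebraMap (𝓞 K) K g + x) + (x ^ 2 - u) := by
      rw [map_sub, map_pow, map_intCast]
      ring
    have key : v.valuation K (algebraMap (𝓞 K) K (g ^ 2 - (u : 𝓞 K))) < 1 := by
      rw [e]
      refine (Valuation.map_add _ _ _).trans_lt (max_lt ?_ hx2)
      rw [map_mul]
      have h4 : v.valuation K (algebraMap (𝓞 K) K g + x) ≤ 1 :=
        (Valuation.map_add _ _ _).trans (max_le hg1 hx)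
      calc _ ≤ v.valuation K (algebraMap (𝓞 K) K g - x) * 1 := mul_le_mul' le_rfl h4
        _ < 1 := by rw [mul_one]; exact hg'
    exact (HeightOneSpectrum.valuation_lt_one_iff_mem (K := K) v _).1 key
  obtain ⟨n, hn⟩ := res_int Q hp hp2 hm hv g
  have h5 : ((n ^ 2 - u : ℤ) : 𝓞 K) ∈ v.asIdeal := by
    have e : ((n ^ 2 - u : ℤ) : 𝓞 K) = (g ^ 2 - u) - (g - n) * (g + n) := by push_cast; ring
    rw [e]
    exact v.asIdeal.sub_mem h3 (v.asIdeal.mul_mem_right _ hn)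
  have h6 : (p : ℤ) ∣ n ^ 2 - u := by
    by_contra hc
    have hcop : IsCoprime (p : ℤ) (n ^ 2 - u) :=
      (Nat.prime_iff_prime_int.1 hp).coprime_iff_not_dvd.2 hc
    obtain ⟨a, b, hab⟩ := hcop
    apply one_notMem v
    have e : (1 : 𝓞 K) = a * p + b * ((n ^ 2 - u : ℤ) : 𝓞 K) := by
      have := congrArg (fun w : ℤ => (w : 𝓞 K)) hab
      push_cast at this ⊢
      exact this.symm
    rw [e]
    exact v.asIdeal.add_mem (v.asIdeal.mul_mem_left _ hv) (v.asIdeal.mul_mem_left _ h5)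
  rw [← ZMod.intCast_zmod_eq_zero_iff_dvd] at h6
  push_cast at h6
  exact ⟨n, by linear_combination -h6⟩

end Pool.Agent.H105.EQ
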