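import Pool.Agent.H105.EQ.Pos
import Pool.Agent.H105.EQ.Res

/-!
# Even exponents over quadratic fields: the primes above `p`
-/

set_option autoImplicit false
set_option linter.all false

namespace Pool.Agent.H105.EQ

open NumberField IsDedekindDomain Polynomial WithZero Finset

variable {K : Type} [Field K] [NumberField K]

/-- `t` is strictly smaller than `a` and `b` at `v` -/
def Sm (v : HeightOneSpectrum (𝓞 K)) (t a b : K) : Prop :=
  v.valuation K t < v.valuation K a ∧ v.valuation K t < v.valuation K b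

/-- integral solutions of `a ^ (2 p) = ε b ^ (2 p) + t ^ (2 p)` -/
structure SolO (p : ℕ) (a b t : 𝓞 K) (ε : ℤ) : Prop where
  ha : a ≠ 0
  hb : b ≠ 0
  ht : t ≠ 0
  hε : ε = 1 ∨ ε = -1
  h : a ^ (2 * p) = ε * b ^ (2 * p) + t ^ (2 * p)

theorem SolO.sol {p : ℕ} {a b t : 𝓞 K} {ε : ℤ} (s : SolO p a b t ε) :
    Sol p (algebraMap (𝓞 K) K a) (algebraMap (𝓞 K) K b) (algebraMap (𝓞 K) K t) (ε : K) where
  ha := alg_ne s.ha
  hb := alg_ne s.hb
  ht := alg_ne s.ht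
  hε := by rcases s.hε with h | h <;> rw [h] <;> simp
  h := by
    have h1 := congrArg (algebraMap (𝓞 K) K) s.h
    rw [map_pow, map_add, map_mul, map_pow, map_pow, map_intCast] at h1
    exact h1

theorem V_p {v : HeightOneSpectrum (𝓞 K)} {p : ℕ} (h : (p : 𝓞 K) ∉ v.asIdeal) :
    v.valuation K (p : K) = 1 := by
  have h1 := (HeightOneSpectrum.valuation_eq_one_iff_notMem (K := K) v
    (r := (p : 𝓞 K))).2 h
  have e : algebraMap (𝓞 K) K (p : 𝓞 K) = (p : K) := map_natCast _ _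
  rwa [e] at h1

theorem alg_c {a b : 𝓞 K} {ε : ℤ} : algebraMap (𝓞 K) K (a ^ 2 - ε * b ^ 2) =
    (algebraMap (𝓞 K) K a) ^ 2 - (ε : K) * (algebraMap (𝓞 K) K b) ^ 2 := by
  rw [map_sub, map_mul, map_pow, map_pow, map_intCast]

theorem SolO.c_ne {p : ℕ} (hp : Odd p) {a b t : 𝓞 K} {ε : ℤ} (s : SolO p a b t ε) :
    a ^ 2 - ε * b ^ 2 ≠ 0 := by
  intro h
  apply s.sol.c_ne hp
  rw [← alg_c, h, map_zero]

/-- the valuation of `r - 1` at a prime above two which divides `t` -/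
theorem at_two {p : ℕ} (hp : p.Prime) (hp2 : p ≠ 2) {a b t : 𝓞 K} {ε : ℤ} (s : SolO p a b t ε)
    {P : HeightOneSpectrum (𝓞 K)} {e : ℕ} (l : Loc P e)
    (hP : Sm P (algebraMap (𝓞 K) K t) (algebraMap (𝓞 K) K a) (algebraMap (𝓞 K) K b)) :
    P.valuation K ((∑ j ∈ range p, ratio (algebraMap (𝓞 K) K a) (algebraMap (𝓞 K) K b) (ε : K) ^ j)
      - p) ≤ exp (-6) := by
  have hodd : Odd p := hp.odd_of_ne_two hp2
  have hp3 : 3 ≤ p := by have := hp.two_le; omega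
  have S := s.sol
  have hab := S.same hp.ne_zero (Or.inl hP.1)
  have hL := (eq_iff S.ha S.hb).1 hab
  have hr : P.valuation K (ratio (algebraMap (𝓞 K) K a) (algebraMap (𝓞 K) K b) (ε : K)) = 1 := by
    rw [eq_one_iff S.ratio_ne, S.L_ratio, hL]; ring
  have hp1 : P.valuation K (p : K) = 1 := by
    have := V_odd l.h2 (n := (p : ℤ)) (by exact_mod_cast hodd)
    simpa using this
  refine (sum_sub_le hr.le p).trans ?_
  rw [V_eq (S.r1_ne hodd), exp_le_exp, S.small hodd hab hp1 (l.sub_one hr)]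
  have h1 := (lt_iff S.ht S.hb).1 hP.2
  have h2 : (3 : ℤ) ≤ p := by exact_mod_cast hp3
  nlinarith

/-- `c G` is a square -/
theorem cG {p : ℕ} (hodd : Odd p) {a b t ε : K} (S : Sol p a b t ε) :
    (a ^ 2 - ε * b ^ 2) * (∑ j ∈ range p, ratio a b ε ^ j) * b ^ (2 * p) = b ^ 2 * t ^ (2 * p) := by
  have h1 := S.fac
  rw [S.ratio_pow hodd] at h1
  have h2 : ε * b ^ (2 * p) ≠ 0 := mul_ne_zero S.eps (pow_ne_zero _ S.hb)
  rw [eq_div_iff h2] at h1
  rw [S.c_eq]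
  have h3 := S.eps
  calc ε * b ^ 2 * (ratio a b ε - 1) * (∑ j ∈ range p, ratio a b ε ^ j) * b ^ (2 * p)
      = b ^ 2 * ((∑ j ∈ range p, ratio a b ε ^ j) * (ratio a b ε - 1) * (ε * b ^ (2 * p))) := by
        ring
    _ = b ^ 2 * t ^ (2 * p) := by rw [h1]

theorem loc_exists (Q : QD K) (hQ : Q.m % 8 ≠ 5) (P : HeightOneSpectrum (𝓞 K))
    (h2 : (2 : 𝓞 K) ∈ P.asIdeal) : ∃ e, Loc P e := by
  have hm4 : Q.m % 4 ≠ 0 := by
    intro h0
    have h1 := Q.sf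
    have h3 : (2 : ℤ) * 2 ∣ Q.m := by omega
    have h4 := h1 2 h3
    exact absurd h4 (by norm_num [Int.isUnit_iff])
  by_cases hm : Q.m % 4 = 2 ∨ Q.m % 4 = 3
  · exact ⟨2, loc_ram Q hm P h2⟩
  · exact ⟨1, loc_split Q (by omega) P h2⟩

/-- a prime above two divides `t`: so does a prime above `p` -/
theorem main1 (Q : QD K) (hQ : Q.m % 8 ≠ 5) {p : ℕ} (hp : p.Prime) (hp2 : p ≠ 2)
    (hH : Hyp Q.m p) {a b t : 𝓞 K} {ε : ℤ} (s : SolO p a b t ε)
    {P : HeightOneSpectrum (𝓞 K)} (h2 : (2 : 𝓞 K) ∈ P.asIdeal)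
    (hP : Sm P (algebraMap (𝓞 K) K t) (algebraMap (𝓞 K) K a) (algebraMap (𝓞 K) K b)) :
    ∃ v : HeightOneSpectrum (𝓞 K), (p : 𝓞 K) ∈ v.asIdeal ∧
      Sm v (algebraMap (𝓞 K) K t) (algebraMap (𝓞 K) K a) (algebraMap (𝓞 K) K b) := by
  by_contra hcon
  push Not at hcon
  have hodd : Odd p := hp.odd_of_ne_two hp2
  have S := s.sol
  obtain ⟨c, hc⟩ : ∃ c : 𝓞 K, c = a ^ 2 - ε * b ^ 2 := ⟨_, rfl⟩
  have hcK : algebraMap (𝓞 K) K c =
      (algebraMap (𝓞 K) K a) ^ 2 - (ε : K) * (algebraMap (𝓞 K) K b) ^ 2 := by rw [hc, alg_c]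
  have hc0 : c ≠ 0 := hc ▸ s.c_ne hodd
  have heven : ∀ v : HeightOneSpectrum (𝓞 K), ∃ k : ℤ,
      L (v.valuation K) (algebraMap (𝓞 K) K c) = 2 * k := by
    intro v
    rw [hcK]
    apply S.even hodd
    by_cases hv : (p : 𝓞 K) ∈ v.asIdeal
    · exact Or.inr (hcon v hv)
    · exact Or.inl (V_p hv)
  obtain ⟨n, hn⟩ := norm_sq hc0 heven
  have hNpos : 0 < Algebra.norm ℤ c := by
    by_cases hD : 0 < NumberField.discr K
    · rw [hc]; exact (pos_c Q hD hodd s.hε s.ht s.h).2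
    · exact norm_pos_imag Q (not_lt.1 hD) hc0
  have hTpos : 0 < Q.m → 0 < Algebra.trace ℤ (𝓞 K) c := by
    intro hm
    rw [hc]
    exact (pos_c Q ((m_pos_iff Q).1 hm) hodd s.hε s.ht s.h).1
  have hN : Algebra.norm ℤ c = (n : ℤ) ^ 2 := by
    have : ((Algebra.norm ℤ c).natAbs : ℤ) = ((n ^ 2 : ℕ) : ℤ) := by rw [hn]
    push_cast at this
    rw [← this, abs_of_pos hNpos]
  have hn0 : (0 : ℤ) < n := by
    rcases Nat.eq_zero_or_pos n with h | h
    · rw [hN, h] at hNpos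
      norm_num at hNpos
    · exact_mod_cast h
  obtain ⟨r, g, hr0, hg0, hcr, hrpos⟩ := exists_s Q hc0 hN hn0 hTpos
  obtain ⟨e, b', d, hre, hb', hd, hdm, hdpos⟩ := exists_d (m := Q.m) hr0
    (fun q hq hq2 hqm => even_fact Q hc0 hg0 heven hr0 hcr hq hq2 hqm)
  have hm0 : Q.m ≠ 0 := by
    intro h
    have := Q.sf
    rw [h] at this
    exact not_squarefree_zero this
  have hsg : Q.m < 0 ∨ 0 < d := by
    rcases lt_or_gt_of_ne hm0 with h | h
    · exact Or.inl h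
    · exact Or.inr (hdpos (hrpos h))
  have : Fact p.Prime := ⟨hp⟩
  obtain ⟨e', l⟩ := loc_exists Q hQ P h2
  have hE := at_two hp hp2 s l hP
  obtain ⟨G, hG⟩ : ∃ G : K, G = ∑ j ∈ range p,
    ratio (algebraMap (𝓞 K) K a) (algebraMap (𝓞 K) K b) (ε : K) ^ j := ⟨_, rfl⟩
  have hcG := cG hodd S
  rw [← hcK] at hcG
  rw [← hG] at hE hcG
  have hcrK := congrArg (algebraMap (𝓞 K) K) hcr
  rw [map_mul, map_pow, map_intCast] at hcrK
  have hbK := S.hb
  have htK := S.ht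
  have hgK := alg_ne (K := K) hg0
  have hcKne := alg_ne (K := K) hc0
  have hrK : (r : K) ≠ 0 := by exact_mod_cast hr0
  obtain ⟨γ, hγd⟩ : ∃ γ : K, γ = r * (algebraMap (𝓞 K) K t) ^ p * algebraMap (𝓞 K) K b /
      ((algebraMap (𝓞 K) K b) ^ p * algebraMap (𝓞 K) K g) := ⟨_, rfl⟩
  have hγ0 : γ ≠ 0 := by
    rw [hγd]
    exact div_ne_zero (mul_ne_zero (mul_ne_zero hrK (pow_ne_zero p htK)) hbK)
      (mul_ne_zero (pow_ne_zero p hbK) hgK)
  have hγ : γ ^ 2 = r * G := by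
    rw [hγd, div_pow, div_eq_iff (pow_ne_zero 2 (mul_ne_zero (pow_ne_zero p hbK) hgK))]
    have e2 : ((algebraMap (𝓞 K) K b) ^ p * algebraMap (𝓞 K) K g) ^ 2 =
        (algebraMap (𝓞 K) K b) ^ (2 * p) * (algebraMap (𝓞 K) K c * r) := by
      rw [hcrK]; ring
    rw [e2]
    have e3 : (r * (algebraMap (𝓞 K) K t) ^ p * algebraMap (𝓞 K) K b) ^ 2 =
        r ^ 2 * ((algebraMap (𝓞 K) K b) ^ 2 * (algebraMap (𝓞 K) K t) ^ (2 * p)) := by ring
    rw [e3, ← hcG]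
    ring
  refine no_cls (p := p) (e := e) (b := b') hp2 hH hm0 hd hb' hdm hsg ?_ ?_
  · intro hsq hne0
    obtain ⟨v, hv⟩ := exists_above Q hp
    have hVp : v.valuation K (p : K) < 1 := by
      have h := (HeightOneSpectrum.valuation_lt_one_iff_mem (K := K) v (p : 𝓞 K)).2 hv
      have e : algebraMap (𝓞 K) K (p : 𝓞 K) = (p : K) := map_natCast _ _
      rw [← e]
      exact h
    obtain ⟨ρ, hρ0, hρ⟩ := S.G_sq hp hodd hVp (hcon v hv)
    rw [← hG] at hρ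
    have hb0 : (b' : K) ≠ 0 := by
      intro h0
      have : b' = 0 := by exact_mod_cast h0
      rw [this] at hb'
      simp at hb'
    refine qr Q hp2 hsq hv (x := γ / (b' * ρ)) (η := G / ρ ^ 2) hρ ?_
    rw [div_pow, hγ, hre]
    push_cast
    field_simp
  · have hre' : r = 2 ^ e * (d * b' ^ 2) := hre
    exact local_main Q hQ h2 (p := (p : ℤ)) (by exact_mod_cast hodd) hre' (hd.mul hb'.pow)
      (γ := γ) (E := G - p) hγ0 hE (by rw [hγ]; push_cast; ring)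

end Pool.Agent.H105.EQ
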