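import Pool.Agent.H105.EQ.Main

/-!
# Even exponents over quadratic fields: all primes above `p`
-/

set_option autoImplicit false
set_option linter.all false

namespace Pool.Agent.H105.EQ

open NumberField IsDedekindDomain Polynomial WithZero Finset

variable {K : Type} [Field K] [NumberField K]

theorem two_adic {p M X Y : ℤ} (hp : Odd p) (hM : 8 ∣ M - 1) (hX : X ≠ 0) (hY : Y ≠ 0)
    (h : p * X ^ 2 = M * Y ^ 2) : 8 ∣ p - 1 := by
  obtain ⟨i, x, hx, hxo⟩ := int_two X hX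
  obtain ⟨j, y, hy, hyo⟩ := int_two Y hY
  have hMo : Odd M := by
    obtain ⟨k, hk⟩ := hM
    exact ⟨4 * k, by linarith⟩
  have hpx : Odd (p * x ^ 2) := hp.mul hxo.pow
  have hMy : Odd (M * y ^ 2) := hMo.mul hyo.pow
  have h1 : 2 ^ (2 * i) * (p * x ^ 2) = 2 ^ (2 * j) * (M * y ^ 2) := by
    rw [hx, hy] at h
    linear_combination h
  have h2 : i = j := by
    rcases lt_trichotomy i j with hlt | heq | hgt
    · exfalso
      obtain ⟨k, hk⟩ : ∃ k, 2 * j = 2 * i + (k + 1) := ⟨2 * j - 2 * i - 1, by omega⟩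
      rw [hk, pow_add, mul_assoc] at h1
      have h3 := mul_left_cancel₀ (pow_ne_zero _ two_ne_zero) h1
      rw [h3, pow_succ] at hpx
      have : Even (2 ^ k * 2 * (M * y ^ 2)) := ⟨2 ^ k * (M * y ^ 2), by ring⟩
      exact (Int.not_even_iff_odd.2 hpx) this
    · exact heq
    · exfalso
      obtain ⟨k, hk⟩ : ∃ k, 2 * i = 2 * j + (k + 1) := ⟨2 * i - 2 * j - 1, by omega⟩
      rw [hk, pow_add, mul_assoc] at h1
      have h3 := mul_left_cancel₀ (pow_ne_zero _ two_ne_zero) h1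
      rw [← h3, pow_succ] at hMy
      have : Even (2 ^ k * 2 * (p * x ^ 2)) := ⟨2 ^ k * (p * x ^ 2), by ring⟩
      exact (Int.not_even_iff_odd.2 hMy) this
  rw [h2] at h1
  have h3 := mul_left_cancel₀ (pow_ne_zero _ two_ne_zero) h1
  obtain ⟨u, hu⟩ := sq_odd hxo
  obtain ⟨w, hw⟩ := sq_odd hyo
  obtain ⟨k, hk⟩ := hM
  rw [hu, hw] at h3
  have hM' : M = 8 * k + 1 := by linarith
  rw [hM'] at h3
  exact ⟨k + w + 8 * k * w - p * u, by linarith⟩

/-- an element which is integral at all primes above two has an odd denominator -/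
theorem odd_den (Q : QD K) {x : K}
    (h : ∀ P : HeightOneSpectrum (𝓞 K), (2 : 𝓞 K) ∈ P.asIdeal → P.valuation K x ≤ 1) :
    ∃ (k : ℤ) (y : 𝓞 K), Odd k ∧ (k : K) * x = algebraMap (𝓞 K) K y := by
  -- the ideal of denominators
  let I : Ideal (𝓞 K) :=
    { carrier := {r | ∃ y : 𝓞 K, algebraMap (𝓞 K) K r * x = algebraMap (𝓞 K) K y}
      add_mem' := by
        rintro a b ⟨y, hy⟩ ⟨z, hz⟩
        exact ⟨y + z, by rw [map_add, map_add, add_mul, hy, hz]⟩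
      zero_mem' := ⟨0, by rw [map_zero, zero_mul]⟩
      smul_mem' := by
        rintro c a ⟨y, hy⟩
        exact ⟨c * y, by rw [smul_eq_mul, map_mul, map_mul, mul_assoc, hy]⟩ }
  have hI : I ⊔ Ideal.span {(2 : 𝓞 K)} = ⊤ := by
    by_contra hne
    obtain ⟨P, hP, hle⟩ := Ideal.exists_le_maximal _ hne
    have h2P : (2 : 𝓞 K) ∈ P := (le_sup_right.trans hle) (Ideal.subset_span rfl)
    have hP0 : P ≠ ⊥ := by
      rintro rfl
      rw [Ideal.mem_bot] at h2P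
      exact two_ne_zero h2P
    let v : HeightOneSpectrum (𝓞 K) := ⟨P, hP.isPrime, hP0⟩
    obtain ⟨n, ⟨d, hd⟩, hnd⟩ := HeightOneSpectrum.exists_primeCompl_mul_eq_of_integer v x (h v h2P)
    have hdI : d ∈ I := ⟨n, by rw [mul_comm]; exact hnd⟩
    exact hd ((le_sup_left.trans hle) hdI)
  rw [Ideal.eq_top_iff_one, Submodule.mem_sup] at hI
  obtain ⟨i, hi, w, hw, hiw⟩ := hI
  obtain ⟨j, hj⟩ := Ideal.mem_span_singleton.1 hw
  obtain ⟨y, hy⟩ := hi
  -- the norm of `i` is odd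
  have hNi : ((Algebra.norm ℤ i : ℤ) : 𝓞 K) = i * Q.σ i := Q.hN i
  have hi' : i = 1 - 2 * j := by rw [← hiw, hj]; ring
  have hodd : Odd (Algebra.norm ℤ i) := by
    refine ⟨2 * Algebra.norm ℤ j - Algebra.trace ℤ (𝓞 K) j, ?_⟩
    have h1 : ((Algebra.norm ℤ i : ℤ) : 𝓞 K) =
        ((2 * (2 * Algebra.norm ℤ j - Algebra.trace ℤ (𝓞 K) j) + 1 : ℤ) : 𝓞 K) := by
      rw [hNi, hi', map_sub, map_one, map_mul, map_ofNat]
      push_cast
      rw [Q.hN, Q.hT]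
      ring
    exact_mod_cast h1
  refine ⟨Algebra.norm ℤ i, Q.σ i * y, hodd, ?_⟩
  have h1 := congrArg (algebraMap (𝓞 K) K) hNi
  rw [map_intCast, map_mul] at h1
  rw [h1, map_mul, ← hy]
  ring

theorem absNorm_nat (Q : QD K) (q : ℕ) : Ideal.absNorm (Ideal.span {(q : 𝓞 K)}) = q ^ 2 := by
  rw [Ideal.absNorm_span_singleton]
  have h1 : Algebra.norm ℤ (q : 𝓞 K) = (q : ℤ) ^ 2 := by
    have h2 := Q.hN (q : 𝓞 K)
    have hσq : Q.σ (q : 𝓞 K) = q := map_natCast Q.σ q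
    rw [hσq] at h2
    have h3 : ((Algebra.norm ℤ (q : 𝓞 K) : ℤ) : 𝓞 K) = (((q : ℤ) ^ 2 : ℤ) : 𝓞 K) := by
      rw [h2]
      push_cast
      ring
    exact_mod_cast h3
  rw [h1]
  simp

/-- two different primes above `p` have norm `p`, and there are no others -/
theorem two_primes (Q : QD K) {p : ℕ} (hp : p.Prime) {v v' : HeightOneSpectrum (𝓞 K)}
    (hv : (p : 𝓞 K) ∈ v.asIdeal) (hv' : (p : 𝓞 K) ∈ v'.asIdeal) (hne : v ≠ v') :
    Ideal.absNorm v.asIdeal = p ∧ ∀ w : HeightOneSpectrum (𝓞 K), (p : 𝓞 K) ∈ w.asIdeal →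
      w = v ∨ w = v' := by
  have hvm : v.asIdeal.IsMaximal := v.isPrime.isMaximal v.ne_bot
  have hvm' : v'.asIdeal.IsMaximal := v'.isPrime.isMaximal v'.ne_bot
  have hcop : IsCoprime v.asIdeal v'.asIdeal := by
    rw [Ideal.isCoprime_iff_sup_eq]
    by_contra h
    have h1 : v.asIdeal = v.asIdeal ⊔ v'.asIdeal := hvm.eq_of_le h le_sup_left
    have h2 : v'.asIdeal = v.asIdeal ⊔ v'.asIdeal := hvm'.eq_of_le h le_sup_right
    exact hne (HeightOneSpectrum.ext (h1.trans h2.symm))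
  have hmul : v.asIdeal * v'.asIdeal ∣ Ideal.span {(p : 𝓞 K)} := by
    rw [Ideal.dvd_span_singleton, ← Ideal.inf_eq_mul_of_isCoprime hcop]
    exact ⟨hv, hv'⟩
  obtain ⟨I, hI⟩ := hmul
  have h4 := congrArg Ideal.absNorm hI
  rw [absNorm_nat Q, map_mul, map_mul] at h4
  have hdv : ∀ w : HeightOneSpectrum (𝓞 K), (p : 𝓞 K) ∈ w.asIdeal →
      ∃ i, 1 ≤ i ∧ Ideal.absNorm w.asIdeal = p ^ i := by
    intro w hw
    have h1 : Ideal.absNorm w.asIdeal ∣ p ^ 2 := by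
      rw [← absNorm_nat Q]
      exact Ideal.absNorm_dvd_absNorm_of_le (by
        rw [Ideal.span_singleton_le_iff_mem]; exact hw)
    obtain ⟨i, hi, h2⟩ := (Nat.dvd_prime_pow hp).1 h1
    refine ⟨i, ?_, h2⟩
    have h3 := two_le_absNorm w
    rw [h2] at h3
    rcases Nat.eq_zero_or_pos i with h | h
    · rw [h] at h3; norm_num at h3
    · exact h
  obtain ⟨i, hi, h5⟩ := hdv v hv
  obtain ⟨j, hj, h6⟩ := hdv v' hv'
  rw [h5, h6] at h4
  have hI0 : Ideal.absNorm I ≠ 0 := by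
    intro h
    rw [h, mul_zero] at h4
    exact (pow_ne_zero 2 hp.ne_zero) h4
  have h7 : p ^ (i + j) ∣ p ^ 2 := ⟨Ideal.absNorm I, by rw [pow_add]; exact h4⟩
  have h8 : i + j ≤ 2 := (Nat.pow_dvd_pow_iff_le_right hp.one_lt).1 h7
  have hi1 : i = 1 := by omega
  have hj1 : j = 1 := by omega
  rw [hi1, hj1] at h4
  have h9 : Ideal.absNorm I = 1 := by
    have hp2 : 0 < p ^ 2 := pow_pos hp.pos 2
    apply Nat.eq_of_mul_eq_mul_left hp2
    rw [mul_one]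
    calc p ^ 2 * Ideal.absNorm I = p ^ 1 * p ^ 1 * Ideal.absNorm I := by ring
      _ = p ^ 2 := h4.symm
  refine ⟨by rw [h5, hi1, pow_one], fun w hw => ?_⟩
  rw [Ideal.absNorm_eq_one_iff.1 h9, Ideal.mul_top] at hI
  have h10 : v.asIdeal * v'.asIdeal ≤ w.asIdeal := by
    rw [← hI, Ideal.span_singleton_le_iff_mem]
    exact hw
  rcases (w.isPrime.mul_le).1 h10 with h | h
  · exact Or.inl (HeightOneSpectrum.ext (hvm.eq_of_le w.isPrime.ne_top h)).symm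
  · exact Or.inr (HeightOneSpectrum.ext (hvm'.eq_of_le w.isPrime.ne_top h)).symm

/-- if all primes above two divide `t`, so do all primes above `p` -/
theorem main2 (Q : QD K) (hQ : Q.m % 8 ≠ 5) {p : ℕ} (hp : p.Prime) (hp2 : p ≠ 2)
    (hH : Hyp Q.m p) {a b t : 𝓞 K} {ε : ℤ} (s : SolO p a b t ε)
    (hP : ∀ P : HeightOneSpectrum (𝓞 K), (2 : 𝓞 K) ∈ P.asIdeal →
      Sm P (algebraMap (𝓞 K) K t) (algebraMap (𝓞 K) K a) (algebraMap (𝓞 K) K b)) :
    ∀ v : HeightOneSpectrum (𝓞 K), (p : 𝓞 K) ∈ v.asIdeal →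
      Sm v (algebraMap (𝓞 K) K t) (algebraMap (𝓞 K) K a) (algebraMap (𝓞 K) K b) := by
  intro v2 hv2
  by_contra hcon
  have hodd : Odd p := hp.odd_of_ne_two hp2
  have S := s.sol
  obtain ⟨P0, hP0⟩ := exists_above Q Nat.prime_two
  have hP0' : (2 : 𝓞 K) ∈ P0.asIdeal := by exact_mod_cast hP0
  obtain ⟨v1, hv1, hs1⟩ := main1 Q hQ hp hp2 hH s hP0' (hP P0 hP0')
  have hne : v1 ≠ v2 := by
    rintro rfl
    exact hcon hs1
  obtain ⟨hNv1, hall⟩ := two_primes Q hp hv1 hv2 hne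
  have hm0 : Q.m ≠ 0 := by
    intro h
    have := Q.sf
    rw [h] at this
    exact not_squarefree_zero this
  have hpm : ¬ (p : ℤ) ∣ Q.m := by
    intro h
    have hpo : Odd (p : ℤ) := by exact_mod_cast hodd
    obtain ⟨_, _, h3⟩ := hH p hpo h (Or.inr (by exact_mod_cast hp.pos))
      (by rw [sub_self]; exact dvd_zero 8)
    exact h3 ⟨0, by simp⟩
  obtain ⟨c, hc⟩ : ∃ c : 𝓞 K, c = a ^ 2 - ε * b ^ 2 := ⟨_, rfl⟩
  have hcK : algebraMap (𝓞 K) K c =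
      (algebraMap (𝓞 K) K a) ^ 2 - (ε : K) * (algebraMap (𝓞 K) K b) ^ 2 := by rw [hc, alg_c]
  have hc0 : c ≠ 0 := hc ▸ s.c_ne hodd
  have heven : ∀ v : HeightOneSpectrum (𝓞 K), v ≠ v1 → ∃ k : ℤ,
      L (v.valuation K) (algebraMap (𝓞 K) K c) = 2 * k := by
    intro v hvv
    rw [hcK]
    apply S.even hodd
    by_cases hv : (p : 𝓞 K) ∈ v.asIdeal
    · rcases hall v hv with h | h
      · exact absurd h hvv
      · subst h
        exact Or.inr hcon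
    · exact Or.inl (V_p hv)
  have hodd1 : ∃ k : ℤ, L (v1.valuation K) (algebraMap (𝓞 K) K c) = 2 * k + 1 := by
    rw [hcK]
    apply S.odd_at hp hodd
    · have hp0 : (p : K) ≠ 0 := by exact_mod_cast hp.ne_zero
      rw [V_eq hp0, L_prime Q hp hp2 hpm hv1]
    · exact Or.inl hs1.1
  obtain ⟨n, hn⟩ := norm_sq' hc0 v1 heven hodd1
  rw [hNv1] at hn
  have hNpos : 0 < Algebra.norm ℤ c := by
    by_cases hD : 0 < NumberField.discr K
    · rw [hc]; exact (pos_c Q hD hodd s.hε s.ht s.h).2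
    · exact norm_pos_imag Q (not_lt.1 hD) hc0
  have hN : Algebra.norm ℤ c * p = (n : ℤ) ^ 2 := by
    have : (((Algebra.norm ℤ c).natAbs * p : ℕ) : ℤ) = ((n ^ 2 : ℕ) : ℤ) := by rw [hn]
    push_cast at this
    rw [← this, abs_of_pos hNpos]
  obtain ⟨G, hG⟩ : ∃ G : K, G = ∑ j ∈ range p,
    ratio (algebraMap (𝓞 K) K a) (algebraMap (𝓞 K) K b) (ε : K) ^ j := ⟨_, rfl⟩
  have hcG := cG hodd S
  rw [← hcK, ← hG] at hcG
  -- denominators
  obtain ⟨k, y, hk, hy⟩ := odd_den Q (x := (G - p) / 8) (by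
    intro P h2
    obtain ⟨e, l⟩ := loc_exists Q hQ P h2
    have hE := at_two hp hp2 s l (hP P h2)
    rw [← hG] at hE
    have h8 : (8 : K) = 2 ^ 3 := by norm_num
    have he2 : e ≤ 2 := by
      have h1 := loc_of Q P h2 e (by rw [l.he])
      exact pow_dvd_four (two_le_absNorm P) h1
    have h3 : exp (-6 : ℤ) ≤ P.valuation K (8 : K) := by
      rw [h8, V_eq (pow_ne_zero 3 two_ne), exp_le_exp, L_pow, l.he]
      push_cast
      have : (e : ℤ) ≤ 2 := by exact_mod_cast he2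
      linarith
    rw [map_div₀]
    have h80 : P.valuation K (8 : K) ≠ 0 := by
      rw [Valuation.ne_zero_iff]
      norm_num
    exact div_le_one_of_le₀ (hE.trans h3) zero_le)
  have h80 : (8 : K) ≠ 0 := by norm_num
  have hη : algebraMap (𝓞 K) K ((k * p : ℤ) + 8 * y) = k * G := by
    rw [map_add, map_mul, map_intCast, map_ofNat, ← hy]
    push_cast
    field_simp
    ring
  obtain ⟨η, hηd⟩ : ∃ η : 𝓞 K, η = ((k * p : ℤ) : 𝓞 K) + 8 * y := ⟨_, rfl⟩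
  rw [← hηd] at hη
  have hMη : 8 ∣ Algebra.norm ℤ η - 1 := by
    have h1 : Algebra.norm ℤ η = (k * p) ^ 2 +
        8 * (k * p * Algebra.trace ℤ (𝓞 K) y + 8 * Algebra.norm ℤ y) := by
      have h2 : ((Algebra.norm ℤ η : ℤ) : 𝓞 K) = (((k * p) ^ 2 +
        8 * (k * p * Algebra.trace ℤ (𝓞 K) y + 8 * Algebra.norm ℤ y) : ℤ) : 𝓞 K) := by
        rw [Q.hN, hηd, map_add, map_mul, map_intCast, map_ofNat]
        push_cast
        rw [Q.hN, Q.hT]
        ring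
      exact_mod_cast h2
    obtain ⟨u, hu⟩ := sq_odd (hk.mul (show Odd (p : ℤ) by exact_mod_cast hodd))
    rw [h1, hu]
    exact ⟨u + (k * p * Algebra.trace ℤ (𝓞 K) y + 8 * Algebra.norm ℤ y), by ring⟩
  have hfin : c * η * b ^ (2 * p) = k * (b ^ 2 * t ^ (2 * p)) := by
    apply RingOfIntegers.coe_injective
    rw [map_mul, map_mul, map_mul, map_mul, map_pow, map_pow, map_pow, map_intCast, hη, ← hcG]
    ring
  have hfN := congrArg (Algebra.norm ℤ) hfin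
  rw [map_mul, map_mul, map_mul, map_mul, map_pow, map_pow, map_pow] at hfN
  have hNk : Algebra.norm ℤ ((k : ℤ) : 𝓞 K) = k ^ 2 := by
    have h2 := Q.hN ((k : ℤ) : 𝓞 K)
    have hσq : Q.σ ((k : ℤ) : 𝓞 K) = k := map_intCast Q.σ k
    rw [hσq] at h2
    have h3 : ((Algebra.norm ℤ ((k : ℤ) : 𝓞 K) : ℤ) : 𝓞 K) = ((k ^ 2 : ℤ) : 𝓞 K) := by
      rw [h2]
      push_cast
      ring
    exact_mod_cast h3
  rw [hNk] at hfN
  obtain ⟨B, hB⟩ : ∃ B : ℤ, B = Algebra.norm ℤ b := ⟨_, rfl⟩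
  obtain ⟨T, hT⟩ : ∃ T : ℤ, T = Algebra.norm ℤ t := ⟨_, rfl⟩
  rw [← hB, ← hT] at hfN
  have hB0 : B ≠ 0 := hB ▸ Algebra.norm_ne_zero_iff.2 s.hb
  have hT0 : T ≠ 0 := hT ▸ Algebra.norm_ne_zero_iff.2 s.ht
  have hk0 : k ≠ 0 := by
    rintro rfl
    simp at hk
  have hn0 : (n : ℤ) ≠ 0 := by
    intro h
    rw [h, zero_pow two_ne_zero] at hN
    have : (0 : ℤ) < Algebra.norm ℤ c * p := mul_pos hNpos (by exact_mod_cast hp.pos)
    omega
  have h1 : (p : ℤ) * (k * B * T ^ p) ^ 2 = Algebra.norm ℤ η * (n * B ^ p) ^ 2 := by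
    have e1 : (p : ℤ) * (k * B * T ^ p) ^ 2 = p * (k ^ 2 * (B ^ 2 * T ^ (2 * p))) := by ring
    rw [e1, ← hfN]
    have e2 : Algebra.norm ℤ η * (n * B ^ p) ^ 2 = Algebra.norm ℤ η * (n ^ 2 * B ^ (2 * p)) := by ring
    rw [e2, ← hN]
    ring
  have h2 := two_adic (by exact_mod_cast hodd) hMη
    (mul_ne_zero (mul_ne_zero hk0 hB0) (pow_ne_zero p hT0))
    (mul_ne_zero hn0 (pow_ne_zero p hB0)) h1
  obtain ⟨_, _, h3⟩ := hH 1 odd_one (one_dvd _) (Or.inr one_pos) h2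
  exact h3 ⟨1, by simp⟩

end Pool.Agent.H105.EQ
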