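import Pool.Agent.H105.EQ.Glob

/-!
# Even exponents over quadratic fields: norms of ideal squares, positivity
-/

set_option autoImplicit false
set_option linter.all false

namespace Pool.Agent.H105.EQ

open NumberField IsDedekindDomain Polynomial WithZero

variable {K : Type} [Field K] [NumberField K]

/-- the exponent of `P` in the ideal `I` -/
noncomputable def cnt (P : HeightOneSpectrum (𝓞 K)) (I : Ideal (𝓞 K)) : ℕ :=
  (Associates.mk P.asIdeal).count (Associates.mk I).factors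

theorem ideal_sq {I : Ideal (𝓞 K)} (hI : I ≠ ⊥) (h : ∀ P : HeightOneSpectrum (𝓞 K), 2 ∣ cnt P I) :
    ∃ J : Ideal (𝓞 K), I = J ^ 2 := by
  classical
  have h0 : Associates.mk I ≠ 0 := Associates.mk_ne_zero.2 hI
  obtain ⟨b, hb⟩ := Associates.is_pow_of_dvd_count (k := 2) h0 (by
    intro p hp
    obtain ⟨J, rfl⟩ := Associates.mk_surjective p
    rw [Associates.irreducible_mk] at hp
    have hJ0 : J ≠ ⊥ := hp.ne_zero
    have hJp : J.IsPrime := Ideal.isPrime_of_prime hp.prime
    exact h ⟨J, hJp, hJ0⟩)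
  obtain ⟨J, rfl⟩ := Associates.mk_surjective b
  refine ⟨J, ?_⟩
  rw [← Associates.mk_pow, Associates.mk_eq_mk_iff_associated, associated_iff_eq] at hb
  exact hb

theorem cnt_mul (P : HeightOneSpectrum (𝓞 K)) {I J : Ideal (𝓞 K)} (hI : I ≠ ⊥) (hJ : J ≠ ⊥) :
    cnt P (I * J) = cnt P I + cnt P J := by
  unfold cnt
  rw [← Associates.mk_mul_mk]
  exact Associates.count_mul (Associates.mk_ne_zero.2 hI) (Associates.mk_ne_zero.2 hJ)
    (Associates.irreducible_mk.2 P.irreducible)

theorem L_cnt (P : HeightOneSpectrum (𝓞 K)) {c : 𝓞 K} (hc : c ≠ 0) :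
    L (P.valuation K) (algebraMap (𝓞 K) K c) = -(cnt P (Ideal.span {c}) : ℤ) := by
  unfold L cnt
  rw [HeightOneSpectrum.valuation_of_algebraMap, HeightOneSpectrum.intValuation_if_neg P hc,
    log_exp]

theorem cnt_self (P : HeightOneSpectrum (𝓞 K)) : cnt P P.asIdeal = 1 := by
  unfold cnt
  exact Associates.count_self (Associates.irreducible_mk.2 P.irreducible)

theorem cnt_ne {P P' : HeightOneSpectrum (𝓞 K)} (h : P ≠ P') : cnt P P'.asIdeal = 0 := by
  unfold cnt
  apply Associates.count_eq_zero_of_ne (Associates.irreducible_mk.2 P.irreducible)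
    (Associates.irreducible_mk.2 P'.irreducible)
  intro h1
  apply h
  rw [Associates.mk_eq_mk_iff_associated, associated_iff_eq] at h1
  exact HeightOneSpectrum.ext h1

theorem alg_ne {c : 𝓞 K} (hc : c ≠ 0) : algebraMap (𝓞 K) K c ≠ 0 := by
  intro h
  apply hc
  apply RingOfIntegers.coe_injective
  rw [map_zero]
  exact h

/-- the norm of an integer all of whose valuations are even is a square up to sign -/
theorem norm_sq {c : 𝓞 K} (hc : c ≠ 0)
    (h : ∀ P : HeightOneSpectrum (𝓞 K), ∃ k : ℤ,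
      L (P.valuation K) (algebraMap (𝓞 K) K c) = 2 * k) :
    ∃ n : ℕ, (Algebra.norm ℤ c).natAbs = n ^ 2 := by
  obtain ⟨J, hJ⟩ := ideal_sq (I := Ideal.span {c})
    (by rw [Ne, Ideal.span_singleton_eq_bot]; exact hc) (fun P => by
      obtain ⟨k, hk⟩ := h P
      rw [L_cnt P hc] at hk
      omega)
  refine ⟨Ideal.absNorm J, ?_⟩
  rw [← Ideal.absNorm_span_singleton, hJ, map_pow]

/-- the same, if one prime `P'` has odd exponent -/
theorem norm_sq' {c : 𝓞 K} (hc : c ≠ 0) (P' : HeightOneSpectrum (𝓞 K))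
    (h : ∀ P : HeightOneSpectrum (𝓞 K), P ≠ P' → ∃ k : ℤ,
      L (P.valuation K) (algebraMap (𝓞 K) K c) = 2 * k)
    (h' : ∃ k : ℤ, L (P'.valuation K) (algebraMap (𝓞 K) K c) = 2 * k + 1) :
    ∃ n : ℕ, (Algebra.norm ℤ c).natAbs * Ideal.absNorm P'.asIdeal = n ^ 2 := by
  have hc0 : Ideal.span {c} ≠ ⊥ := by rw [Ne, Ideal.span_singleton_eq_bot]; exact hc
  obtain ⟨J, hJ⟩ := ideal_sq (I := Ideal.span {c} * P'.asIdeal)
    (mul_ne_zero hc0 P'.ne_bot) (fun P => by
      rw [cnt_mul P hc0 P'.ne_bot]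
      by_cases hP : P = P'
      · subst hP
        obtain ⟨k, hk⟩ := h'
        rw [L_cnt P hc] at hk
        rw [cnt_self]
        omega
      · obtain ⟨k, hk⟩ := h P hP
        rw [L_cnt P hc] at hk
        rw [cnt_ne hP]
        omega)
  refine ⟨Ideal.absNorm J, ?_⟩
  rw [← Ideal.absNorm_span_singleton, ← map_mul, hJ, map_pow]

end Pool.Agent.H105.EQ
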