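import Pool.Agent.H105.EQ.Norm

/-!
# Even exponents over quadratic fields: an integer with even valuations is a rational number
times a square
-/

set_option autoImplicit false
set_option linter.all false

namespace Pool.Agent.H105.EQ

open NumberField IsDedekindDomain Polynomial WithZero

variable {K : Type} [Field K] [NumberField K]

theorem real_int (Q : QD K) (hD : 0 < NumberField.discr K) (f : 𝓞 K →+* ℂ) (a : 𝓞 K) :
    ∃ r : ℝ, f a = r := by
  obtain ⟨j, hj⟩ := Q.hD a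
  have h1 := congrArg f (disc_sq Q a _ hj)
  rw [map_pow, map_sub, map_intCast] at h1
  have h2 := congrArg f (Q.hT a)
  rw [map_intCast, map_add] at h2
  obtain ⟨T, hT⟩ : ∃ T : ℤ, T = Algebra.trace ℤ (𝓞 K) a := ⟨_, rfl⟩
  rw [← hT] at h2
  obtain ⟨w, hw⟩ : ∃ w : ℂ, w = f a - f (Q.σ a) := ⟨_, rfl⟩
  rw [← hw] at h1
  have h5 : (0 : ℤ) ≤ j ^ 2 * NumberField.discr K := mul_nonneg (sq_nonneg j) hD.le
  have h6 : w.im = 0 := by
    have hre := congrArg Complex.re h1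
    have him := congrArg Complex.im h1
    simp only [sq, Complex.mul_re, Complex.mul_im, Complex.intCast_re, Complex.intCast_im] at hre him
    have h7 : w.re * w.im = 0 := by linarith
    rcases mul_eq_zero.1 h7 with h8 | h8
    · rw [h8] at hre
      have h9 : (0 : ℝ) ≤ ((j ^ 2 * NumberField.discr K : ℤ) : ℝ) := by exact_mod_cast h5
      rw [sq] at h9
      nlinarith [mul_self_nonneg w.im]
    · exact h8
  refine ⟨(w.re + T) / 2, ?_⟩
  have h7 : w = (w.re : ℂ) := Complex.ext rfl (by simpa using h6)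
  have h8 : f a = (w + T) / 2 := by rw [hw, h2]; ring
  rw [h8, h7]
  push_cast
  simp

/-- `a ^ 2 - ε b ^ 2` is positive in every real embedding -/
theorem pos_real {p : ℕ} (hp : Odd p) {ra rb rt ε : ℝ} (hε : ε = 1 ∨ ε = -1) (ht : rt ≠ 0)
    (h : ra ^ (2 * p) = ε * rb ^ (2 * p) + rt ^ (2 * p)) : 0 < ra ^ 2 - ε * rb ^ 2 := by
  have hεp : ε ^ p = ε := by
    rcases hε with h | h <;> rw [h]
    · simp
    · exact hp.neg_one_pow
  have h1 : (ε * rb ^ 2) ^ p < (ra ^ 2) ^ p := by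
    rw [mul_pow, hεp, ← pow_mul, ← pow_mul, h]
    have : 0 < rt ^ (2 * p) := by
      rw [pow_mul]
      exact pow_pos (by positivity) p
    linarith
  have h2 := (hp.strictMono_pow (R := ℝ)).lt_iff_lt.1 h1
  linarith

theorem pos_c (Q : QD K) (hD : 0 < NumberField.discr K) {p : ℕ} (hp : Odd p) {a b t : 𝓞 K}
    {ε : ℤ} (hε : ε = 1 ∨ ε = -1) (ht : t ≠ 0)
    (h : a ^ (2 * p) = ε * b ^ (2 * p) + t ^ (2 * p)) :
    0 < Algebra.trace ℤ (𝓞 K) (a ^ 2 - ε * b ^ 2) ∧ 0 < Algebra.norm ℤ (a ^ 2 - ε * b ^ 2) := by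
  obtain ⟨φ⟩ : Nonempty (K →+* ℂ) := inferInstance
  have key : ∀ f : 𝓞 K →+* ℂ, Function.Injective f →
      ∃ r : ℝ, 0 < r ∧ f (a ^ 2 - ε * b ^ 2) = r := by
    intro f hf
    obtain ⟨ra, hra⟩ := real_int Q hD f a
    obtain ⟨rb, hrb⟩ := real_int Q hD f b
    obtain ⟨rt, hrt⟩ := real_int Q hD f t
    have h1 := congrArg f h
    rw [map_pow, map_add, map_mul, map_pow, map_pow, map_intCast, hra, hrb, hrt] at h1
    have h2 : ra ^ (2 * p) = (ε : ℝ) * rb ^ (2 * p) + rt ^ (2 * p) := by exact_mod_cast h1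
    have h3 : rt ≠ 0 := by
      rintro rfl
      apply ht
      apply hf
      rw [hrt, map_zero]
      simp
    refine ⟨ra ^ 2 - (ε : ℝ) * rb ^ 2, pos_real hp ?_ h3 h2, ?_⟩
    · rcases hε with h | h <;> rw [h] <;> simp
    · rw [map_sub, map_mul, map_pow, map_pow, map_intCast, hra, hrb]
      push_cast
      rfl
  have hinj : Function.Injective (φ.comp (algebraMap (𝓞 K) K)) :=
    φ.injective.comp RingOfIntegers.coe_injective
  have hσinj : Function.Injective Q.σ := by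
    intro u v huv
    have h1 := conj_conj Q.σ Q.hT u
    rw [huv, conj_conj Q.σ Q.hT v] at h1
    exact h1.symm
  obtain ⟨r1, h1, h1'⟩ := key _ hinj
  obtain ⟨r2, h2, h2'⟩ := key ((φ.comp (algebraMap (𝓞 K) K)).comp Q.σ) (hinj.comp hσinj)
  obtain ⟨c, hc⟩ : ∃ c : 𝓞 K, c = a ^ 2 - ε * b ^ 2 := ⟨_, rfl⟩
  rw [← hc] at h1' h2' ⊢
  obtain ⟨f, hf⟩ : ∃ f : 𝓞 K →+* ℂ, f = φ.comp (algebraMap (𝓞 K) K) := ⟨_, rfl⟩
  rw [← hf] at h1' h2'
  have h2'' : f (Q.σ c) = r2 := h2'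
  have hT := congrArg f (Q.hT c)
  have hN := congrArg f (Q.hN c)
  rw [map_intCast, map_add, h1', h2''] at hT
  rw [map_intCast, map_mul, h1', h2''] at hN
  constructor
  · have h3 : ((Algebra.trace ℤ (𝓞 K) c : ℤ) : ℝ) = r1 + r2 := by exact_mod_cast hT
    have h4 : (0 : ℝ) < ((Algebra.trace ℤ (𝓞 K) c : ℤ) : ℝ) := by rw [h3]; positivity
    exact_mod_cast h4
  · have h3 : ((Algebra.norm ℤ c : ℤ) : ℝ) = r1 * r2 := by exact_mod_cast hN
    have h4 : (0 : ℝ) < ((Algebra.norm ℤ c : ℤ) : ℝ) := by rw [h3]; positivity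
    exact_mod_cast h4

/-- norms are positive in imaginary fields -/
theorem norm_pos_imag (Q : QD K) (hD : NumberField.discr K ≤ 0) {c : 𝓞 K} (hc : c ≠ 0) :
    0 < Algebra.norm ℤ c := by
  obtain ⟨j, hj⟩ := Q.hD c
  have h1 : j ^ 2 * NumberField.discr K ≤ 0 := mul_nonpos_of_nonneg_of_nonpos (sq_nonneg j) hD
  have h2 : 0 ≤ Algebra.norm ℤ c := by nlinarith [sq_nonneg (Algebra.trace ℤ (𝓞 K) c)]
  have h3 : Algebra.norm ℤ c ≠ 0 := Algebra.norm_ne_zero_iff.2 hc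
  omega

theorem m_pos_iff (Q : QD K) : 0 < Q.m ↔ 0 < NumberField.discr K := by
  rcases Q.hm with h | h <;> rw [h] <;> omega

/-- an integer of `K` with even valuations and square norm is a rational integer times a square -/
theorem exists_s (Q : QD K) {c : 𝓞 K} (hc : c ≠ 0) {n : ℤ} (hn : Algebra.norm ℤ c = n ^ 2)
    (hn0 : 0 < n) (hT : 0 < Q.m → 0 < Algebra.trace ℤ (𝓞 K) c) :
    ∃ (s : ℤ) (g : 𝓞 K), s ≠ 0 ∧ g ≠ 0 ∧ c * s = g ^ 2 ∧ (0 < Q.m → 0 < s) := by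
  obtain ⟨T, hTd⟩ : ∃ T : ℤ, T = Algebra.trace ℤ (𝓞 K) c := ⟨_, rfl⟩
  rw [← hTd] at hT
  have h1 := Q.hN c
  have h2 := Q.hT c
  rw [← hTd] at h2
  rw [hn] at h1
  have h3 : c * ((T + 2 * n : ℤ) : 𝓞 K) = (c + n) ^ 2 := by
    push_cast at h1 h2 ⊢
    linear_combination c * h2 - h1
  by_cases hs : T + 2 * n = 0
  · rw [hs, Int.cast_zero, mul_zero] at h3
    have h4 : c + n = 0 := pow_eq_zero_iff two_ne_zero |>.1 h3.symm
    refine ⟨-n, (n : 𝓞 K), by omega, ?_, ?_, fun hm => ?_⟩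
    · exact_mod_cast hn0.ne'
    · have : c = -n := by linear_combination h4
      rw [this]
      push_cast
      ring
    · exfalso
      have := hT hm
      omega
  · refine ⟨T + 2 * n, c + n, hs, ?_, h3, fun hm => ?_⟩
    · intro h0
      rw [h0, zero_pow two_ne_zero] at h3
      rcases mul_eq_zero.1 h3 with h | h
      · exact hc h
      · exact hs (by exact_mod_cast h)
    · have := hT hm
      omega

theorem exists_above (Q : QD K) {q : ℕ} (hq : q.Prime) :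
    ∃ P : HeightOneSpectrum (𝓞 K), (q : 𝓞 K) ∈ P.asIdeal := by
  have h1 : ¬ IsUnit (q : 𝓞 K) := by
    intro h
    have h2 := Algebra.norm ℤ (q : 𝓞 K)
    have h3 := (h.map (Algebra.norm ℤ : 𝓞 K →* ℤ))
    have h4 : Algebra.norm ℤ (q : 𝓞 K) = (q : ℤ) ^ 2 := by
      have h2 := Q.hN (q : 𝓞 K)
      have hσq : Q.σ (q : 𝓞 K) = q := map_natCast Q.σ q
      rw [hσq] at h2
      have h3 : ((Algebra.norm ℤ (q : 𝓞 K) : ℤ) : 𝓞 K) = (((q : ℤ) ^ 2 : ℤ) : 𝓞 K) := by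
        rw [h2]
        push_cast
        ring
      exact_mod_cast h3
    rw [h4] at h3
    have h5 : IsUnit (q : ℤ) := (isUnit_pow_iff two_ne_zero).1 h3
    exact (Nat.prime_iff_prime_int.1 hq).not_unit h5
  have h2 : Ideal.span {(q : 𝓞 K)} ≠ ⊤ := by rwa [Ne, Ideal.span_singleton_eq_top]
  obtain ⟨P, hP, hle⟩ := Ideal.exists_le_maximal _ h2
  have hmem : (q : 𝓞 K) ∈ P := hle (Ideal.subset_span rfl)
  refine ⟨⟨P, hP.isPrime, ?_⟩, hmem⟩
  rintro rfl
  rw [Ideal.mem_bot] at hmem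
  have : (q : ℕ) = 0 := by exact_mod_cast hmem
  exact hq.ne_zero this

/-- the exponents of the primes not dividing `2 m` in `s` are even -/
theorem even_fact (Q : QD K) {c g : 𝓞 K} (hc : c ≠ 0) (hg : g ≠ 0)
    (h : ∀ P : HeightOneSpectrum (𝓞 K), ∃ k : ℤ,
      L (P.valuation K) (algebraMap (𝓞 K) K c) = 2 * k)
    {s : ℤ} (hs : s ≠ 0) (hcs : c * s = g ^ 2) {q : ℕ} (hq : q.Prime) (hq2 : q ≠ 2)
    (hqm : ¬ (q : ℤ) ∣ Q.m) : Even (s.natAbs.factorization q) := by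
  obtain ⟨P, hP⟩ := exists_above Q hq
  have hLq := L_prime Q hq hq2 hqm hP
  have hq0 : (q : K) ≠ 0 := by exact_mod_cast hq.ne_zero
  obtain ⟨k, hk⟩ := h P
  -- `s = q ^ e u`
  obtain ⟨e, he⟩ : ∃ e, e = s.natAbs.factorization q := ⟨_, rfl⟩
  rw [← he]
  have hs0 : s.natAbs ≠ 0 := Int.natAbs_ne_zero.2 hs
  obtain ⟨u, hu, hqu⟩ : ∃ u : ℤ, s = q ^ e * u ∧ ¬ (q : ℤ) ∣ u := by
    have h1 : ((q ^ e : ℕ) : ℤ) ∣ s := by
      rw [he]
      exact Int.natCast_dvd.2 (Nat.ordProj_dvd _ _)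
    obtain ⟨u, hu⟩ := h1
    refine ⟨u, by rw [hu]; push_cast; rfl, fun hd => ?_⟩
    have h2 : q ^ (e + 1) ∣ s.natAbs := by
      rw [← Int.natCast_dvd, hu]
      push_cast
      rw [pow_succ]
      exact mul_dvd_mul_left _ hd
    rw [he] at h2
    exact Nat.pow_succ_factorization_not_dvd hs0 hq h2
  have hu0 : (u : K) ≠ 0 := by
    intro h0
    have : u = 0 := by exact_mod_cast h0
    apply hqu
    rw [this]
    exact dvd_zero _
  have hLu : L (P.valuation K) (u : K) = 0 := by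
    rw [← eq_one_iff hu0]
    have e1 : algebraMap (𝓞 K) K (u : 𝓞 K) = (u : K) := map_intCast _ _
    rw [← e1, HeightOneSpectrum.valuation_eq_one_iff_notMem (K := K) P]
    intro hmem
    have hcop : IsCoprime (q : ℤ) u := (Nat.prime_iff_prime_int.1 hq).coprime_iff_not_dvd.2 hqu
    obtain ⟨a, b, hab⟩ := hcop
    apply one_notMem P
    have e : (1 : 𝓞 K) = a * q + b * u := by
      have := congrArg (fun w : ℤ => (w : 𝓞 K)) hab
      push_cast at this ⊢
      exact this.symm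
    rw [e]
    exact P.asIdeal.add_mem (P.asIdeal.mul_mem_left _ hP) (P.asIdeal.mul_mem_left _ hmem)
  have h1 := congrArg (algebraMap (𝓞 K) K) hcs
  rw [map_mul, map_pow, map_intCast] at h1
  have h2 := congrArg (L (P.valuation K)) h1
  have hsK : (s : K) = (q : K) ^ e * u := by rw [hu]; push_cast; rfl
  rw [L_mul (alg_ne hc) (by exact_mod_cast hs), L_pow, hsK, L_mul (pow_ne_zero e hq0) hu0, L_pow,
    hLq, hLu, hk] at h2
  push_cast at h2
  rw [← Int.even_coe_nat]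
  exact ⟨k - L (P.valuation K) (algebraMap (𝓞 K) K g), by linarith⟩

end Pool.Agent.H105.EQ
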