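import Mathlib

/-!
# Even exponents over quadratic fields: conjugation and the square root
-/

set_option autoImplicit false
set_option linter.all false

namespace Pool.Agent.H105.EQ

open NumberField IsDedekindDomain Polynomial

variable {K : Type} [Field K] [NumberField K]

/-- conjugation on the integers of a quadratic field -/
theorem exists_conj (hK : Module.finrank ℚ K = 2) :
    ∃ σ : 𝓞 K →+* 𝓞 K, (∀ a : 𝓞 K, ((Algebra.norm ℤ a : ℤ) : 𝓞 K) = a * σ a) ∧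
      (∀ a : 𝓞 K, ((Algebra.trace ℤ (𝓞 K) a : ℤ) : 𝓞 K) = a + σ a) ∧ ∃ a, σ a ≠ a := by
  classical
  have : Algebra.IsQuadraticExtension ℚ K := { finrank_eq_two' := hK }
  have : IsGalois ℚ K := inferInstance
  have hcard : Fintype.card Gal(K/ℚ) = 2 := by
    rw [← Nat.card_eq_fintype_card, IsGalois.card_aut_eq_finrank, hK]
  obtain ⟨τ, hτ, huniv⟩ : ∃ τ : Gal(K/ℚ), (1 : Gal(K/ℚ)) ≠ τ ∧
      (Finset.univ : Finset Gal(K/ℚ)) = {1, τ} := by
    obtain ⟨a, b, hab, h⟩ := Finset.card_eq_two.1 hcard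
    have h1 : (1 : Gal(K/ℚ)) ∈ ({a, b} : Finset Gal(K/ℚ)) := by
      have : (1 : Gal(K/ℚ)) ∈ (Finset.univ : Finset Gal(K/ℚ)) := Finset.mem_univ _
      have h' : (Finset.univ : Finset Gal(K/ℚ)) = {a, b} := h
      rwa [h'] at this
    rw [Finset.mem_insert, Finset.mem_singleton] at h1
    rcases h1 with h1 | h1
    · exact ⟨b, by rw [h1]; exact hab, by rw [h1]; exact h⟩
    · refine ⟨a, by rw [h1]; exact hab.symm, ?_⟩
      rw [h1, Finset.pair_comm]
      exact h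
  refine ⟨RingOfIntegers.mapRingHom (τ : K →+* K), fun a => ?_, fun a => ?_, ?_⟩
  · apply RingOfIntegers.coe_injective
    have h1 : algebraMap (𝓞 K) K ((Algebra.norm ℤ a : ℤ) : 𝓞 K) =
        algebraMap ℚ K (Algebra.norm ℚ (a : K)) := by
      rw [← Algebra.coe_norm_int]
      simp
    have h2 := Algebra.norm_eq_prod_automorphisms ℚ (a : K)
    rw [huniv, Finset.prod_pair hτ] at h2
    rw [h1, h2]
    simp [RingOfIntegers.mapRingHom_apply]
  · apply RingOfIntegers.coe_injective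
    have h1 : algebraMap (𝓞 K) K ((Algebra.trace ℤ (𝓞 K) a : ℤ) : 𝓞 K) =
        algebraMap ℚ K (Algebra.trace ℚ K (a : K)) := by
      rw [← Algebra.coe_trace_int]
      simp
    have h2 := trace_eq_sum_automorphisms (K := ℚ) (a : K)
    rw [huniv, Finset.sum_pair hτ] at h2
    rw [h1, h2]
    simp [RingOfIntegers.mapRingHom_apply]
  · by_contra hcon
    push Not at hcon
    apply hτ
    ext x
    obtain ⟨b, c, hc, hbc⟩ := IsFractionRing.div_surjective (A := 𝓞 K) x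
    have h1 : ∀ a : 𝓞 K, τ (a : K) = a := fun a => by
      have := congrArg (fun w : 𝓞 K => (w : K)) (hcon a)
      simpa [RingOfIntegers.mapRingHom_apply] using this
    rw [← hbc, map_div₀ τ]
    have h2 := h1 b
    have h3 := h1 c
    rw [h2, h3]
    rfl

/-- the discriminant of the minimal polynomial of an integer -/
theorem disc_eq (hK : Module.finrank ℚ K = 2) (σ : 𝓞 K →+* 𝓞 K)
    (hN : ∀ a : 𝓞 K, ((Algebra.norm ℤ a : ℤ) : 𝓞 K) = a * σ a)
    (hT : ∀ a : 𝓞 K, ((Algebra.trace ℤ (𝓞 K) a : ℤ) : 𝓞 K) = a + σ a) (a : 𝓞 K) :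
    ∃ m : ℤ, Algebra.trace ℤ (𝓞 K) a ^ 2 - 4 * Algebra.norm ℤ a = m ^ 2 * NumberField.discr K := by
  classical
  have hfr : Module.finrank ℤ (𝓞 K) = 2 := by rw [RingOfIntegers.rank, hK]
  let b : Module.Basis (Fin 2) ℤ (𝓞 K) := Module.finBasisOfFinrankEq ℤ (𝓞 K) hfr
  have h1 : Algebra.discr ℤ ![(1 : 𝓞 K), a] = (b.toMatrix ![(1 : 𝓞 K), a]).det ^ 2 *
      NumberField.discr K := by
    rw [← NumberField.discr_eq_discr K b, ← Algebra.discr_of_matrix_vecMul,
      Module.Basis.toMatrix_map_vecMul]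
  have h2 : ((Algebra.discr ℤ ![(1 : 𝓞 K), a] : ℤ) : 𝓞 K) = (a - σ a) ^ 2 := by
    rw [Algebra.discr_def, Matrix.det_fin_two]
    simp only [Algebra.traceMatrix_apply, Algebra.traceForm_apply, Matrix.cons_val_zero,
      Matrix.cons_val_one, one_mul, mul_one]
    push_cast
    rw [hT, hT, hT, map_one, map_mul]
    ring
  refine ⟨(b.toMatrix ![(1 : 𝓞 K), a]).det, ?_⟩
  rw [← h1]
  have h3 : ((Algebra.trace ℤ (𝓞 K) a ^ 2 - 4 * Algebra.norm ℤ a : ℤ) : 𝓞 K) =
      ((Algebra.discr ℤ ![(1 : 𝓞 K), a] : ℤ) : 𝓞 K) := by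
    rw [h2]
    push_cast
    rw [hT, hN]
    ring
  exact_mod_cast h3

/-- conjugation is an involution -/
theorem conj_conj (σ : 𝓞 K →+* 𝓞 K)
    (hT : ∀ a : 𝓞 K, ((Algebra.trace ℤ (𝓞 K) a : ℤ) : 𝓞 K) = a + σ a) (a : 𝓞 K) :
    σ (σ a) = a := by
  have h1 := congrArg σ (hT a)
  rw [map_intCast, hT a, map_add] at h1
  linear_combination -h1

/-- the data attached to a quadratic field: conjugation and a square root `R` of a squarefree
integer `m` -/
structure QD (K : Type) [Field K] [NumberField K] where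
  σ : 𝓞 K →+* 𝓞 K
  hN : ∀ a : 𝓞 K, ((Algebra.norm ℤ a : ℤ) : 𝓞 K) = a * σ a
  hT : ∀ a : 𝓞 K, ((Algebra.trace ℤ (𝓞 K) a : ℤ) : 𝓞 K) = a + σ a
  hD : ∀ a : 𝓞 K, ∃ j : ℤ,
    Algebra.trace ℤ (𝓞 K) a ^ 2 - 4 * Algebra.norm ℤ a = j ^ 2 * NumberField.discr K
  m : ℤ
  R : 𝓞 K
  sf : Squarefree m
  hR : R ^ 2 = (m : 𝓞 K)
  hσR : σ R = -R
  hm : NumberField.discr K = m ∨ NumberField.discr K = 4 * m
  hm4 : m % 4 = 1 → NumberField.discr K = m

theorem int_decomp (D : ℤ) (hD : D ≠ 0) : ∃ f m : ℤ, D = f ^ 2 * m ∧ Squarefree m := by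
  obtain ⟨a, b, hab, ha⟩ := Nat.sq_mul_squarefree D.natAbs
  have h0 : ((D.natAbs : ℕ) : ℤ) = (b : ℤ) ^ 2 * a := by rw [← hab]; push_cast; rfl
  rcases lt_or_gt_of_ne hD with h | h
  · refine ⟨b, -a, ?_, ?_⟩
    · have : ((D.natAbs : ℕ) : ℤ) = -D := by omega
      rw [this] at h0
      linarith
    · rw [← Int.squarefree_natAbs, Int.natAbs_neg, Int.natAbs_natCast]
      exact ha
  · refine ⟨b, a, ?_, ?_⟩
    · have : ((D.natAbs : ℕ) : ℤ) = D := by omega
      rw [this] at h0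
      linarith
    · exact Int.squarefree_natCast.2 ha

theorem four_sq {j f : ℤ} (h : (j * f) ^ 2 = 4) : f ^ 2 = 1 ∨ f ^ 2 = 4 := by
  have h1 : f ^ 2 ∣ 4 := ⟨j ^ 2, by rw [← h]; ring⟩
  have h2 : f ≤ 2 ∧ -2 ≤ f := by
    have := Int.le_of_dvd (by norm_num) h1
    constructor <;> nlinarith
  have h3 : f = -2 ∨ f = -1 ∨ f = 0 ∨ f = 1 ∨ f = 2 := by omega
  rcases h3 with h | h | h | h | h <;> subst h <;> simp_all

theorem exists_QD (hK : Module.finrank ℚ K = 2) : Nonempty (QD K) := by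
  obtain ⟨σ, hN, hT, a, ha⟩ := exists_conj hK
  have hσσ := conj_conj σ hT
  obtain ⟨D, hDd⟩ : ∃ D : ℤ, D = NumberField.discr K := ⟨_, rfl⟩
  have hD0 : D ≠ 0 := hDd ▸ NumberField.discr_ne_zero K
  obtain ⟨f, m, hfm, hsf⟩ := int_decomp D hD0
  have hf0 : f ≠ 0 := by rintro rfl; apply hD0; rw [hfm]; ring
  have hm0 : m ≠ 0 := by rintro rfl; apply hD0; rw [hfm]; ring
  have hsq : ∀ (g : 𝓞 K) (j : ℤ),
      Algebra.trace ℤ (𝓞 K) g ^ 2 - 4 * Algebra.norm ℤ g = j ^ 2 * NumberField.discr K →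
      (g - σ g) ^ 2 = ((j ^ 2 * NumberField.discr K : ℤ) : 𝓞 K) := by
    intro g j hj
    rw [← hj]
    push_cast
    rw [hN, hT]
    ring
  obtain ⟨j, hj⟩ := disc_eq hK σ hN hT a
  have hδ := hsq a j hj
  rw [← hDd, hfm] at hδ
  have hj0 : j ≠ 0 := by
    rintro rfl
    apply ha
    have h1 : (a - σ a) ^ 2 = 0 := by rw [hδ]; simp
    exact (sub_eq_zero.1 (pow_eq_zero_iff two_ne_zero |>.1 h1)).symm
  -- the square root
  have hkK : ((j * f : ℤ) : K) ≠ 0 := by exact_mod_cast mul_ne_zero hj0 hf0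
  obtain ⟨q, hq⟩ : ∃ q : K, q * ((j * f : ℤ) : K) = algebraMap (𝓞 K) K (a - σ a) :=
    ⟨algebraMap (𝓞 K) K (a - σ a) / ((j * f : ℤ) : K), div_mul_cancel₀ _ hkK⟩
  have hr : q ^ 2 = (m : K) := by
    have h1 := congrArg (algebraMap (𝓞 K) K) hδ
    rw [map_pow, map_intCast, ← hq] at h1
    apply mul_right_cancel₀ (pow_ne_zero 2 hkK)
    rw [← mul_pow, h1]
    push_cast
    ring
  have hint : IsIntegral ℤ q :=
    ⟨X ^ 2 - C m, monic_X_pow_sub_C _ two_ne_zero, by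
      rw [eval₂_sub, eval₂_pow, eval₂_X, eval₂_C, hr, eq_intCast, sub_self]⟩
  obtain ⟨R, hRr⟩ : ∃ R : 𝓞 K, algebraMap (𝓞 K) K R = q := ⟨⟨_, hint⟩, rfl⟩
  have hR : R ^ 2 = (m : 𝓞 K) := by
    apply RingOfIntegers.coe_injective
    rw [map_pow, map_intCast, hRr]
    exact hr
  have hRa : ((j * f : ℤ) : 𝓞 K) * R = a - σ a := by
    apply RingOfIntegers.coe_injective
    rw [map_mul, map_intCast, hRr, mul_comm]
    exact hq
  have hkO : ((j * f : ℤ) : 𝓞 K) ≠ 0 := by exact_mod_cast mul_ne_zero hj0 hf0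
  have hσR : σ R = -R := by
    apply mul_left_cancel₀ hkO
    have h1 := congrArg σ hRa
    rw [map_mul, map_intCast, map_sub, hσσ] at h1
    linear_combination h1 + hRa
  have hTR : Algebra.trace ℤ (𝓞 K) R = 0 := by
    have h2 := hT R
    rw [hσR, add_neg_cancel] at h2
    exact_mod_cast h2
  have hNR : Algebra.norm ℤ R = -m := by
    have h3 := hN R
    rw [hσR] at h3
    have h4 : ((Algebra.norm ℤ R : ℤ) : 𝓞 K) = ((-m : ℤ) : 𝓞 K) := by
      rw [h3]
      push_cast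
      linear_combination -hR
    exact_mod_cast h4
  obtain ⟨i, hi⟩ := disc_eq hK σ hN hT R
  rw [hTR, hNR, ← hDd, hfm] at hi
  have hi4 : (i * f) ^ 2 = 4 := by
    apply mul_right_cancel₀ hm0
    linear_combination -hi
  have hDm : NumberField.discr K = m ∨ NumberField.discr K = 4 * m := by
    rw [← hDd, hfm]
    rcases four_sq hi4 with h | h
    · left; rw [h, one_mul]
    · right; rw [h]
  refine ⟨⟨σ, hN, hT, disc_eq hK σ hN hT, m, R, hsf, hR, hσR, hDm, fun hm4 => ?_⟩⟩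
  rcases hDm with h | h
  · exact h
  exfalso
  obtain ⟨k, hk⟩ : ∃ k : ℤ, m = 4 * k + 1 := ⟨m / 4, by omega⟩
  have hRK : ((R : K)) ^ 2 = 4 * k + 1 := by
    have := congrArg (fun w : 𝓞 K => (w : K)) hR
    simp only [map_pow, map_intCast] at this
    rw [this, hk]
    push_cast
    ring
  have hw : ((1 + (R : K)) / 2) ^ 2 - (1 + (R : K)) / 2 = k := by
    linear_combination (1 / 4 : K) * hRK
  have hintW : IsIntegral ℤ ((1 + (R : K)) / 2) := by
    refine ⟨X ^ 2 - X - C k, ?_, ?_⟩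
    · have e : (X ^ 2 - X - C k : Polynomial ℤ) = X ^ 2 - (X + C k) := by ring
      rw [e]
      refine monic_X_pow_sub ?_
      rw [degree_X_add_C]
      norm_num
    · simp only [eval₂_sub, eval₂_pow, eval₂_X, eval₂_C]
      rw [hw]
      simp
  obtain ⟨W, hW⟩ : ∃ W : 𝓞 K, 2 * W = 1 + R := by
    refine ⟨⟨_, hintW⟩, RingOfIntegers.coe_injective ?_⟩
    simp only [map_mul, map_add, map_one, map_ofNat]
    change 2 * ((1 + (R : K)) / 2) = 1 + (R : K)
    ring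
  have h20 : (2 : 𝓞 K) ≠ 0 := two_ne_zero
  have hσW : σ W = 1 - W := by
    apply mul_left_cancel₀ h20
    have h1 := congrArg σ hW
    rw [map_mul, map_add, map_one, map_ofNat, hσR] at h1
    linear_combination h1 + hW
  obtain ⟨l, hl⟩ := disc_eq hK σ hN hT W
  have h1 := hsq W l hl
  rw [hσW, h] at h1
  have h2 : (W - (1 - W)) ^ 2 = (m : 𝓞 K) := by
    rw [← hR]
    have : W - (1 - W) = R := by linear_combination hW
    rw [this]
  rw [h2] at h1
  have h3 : m = l ^ 2 * (4 * m) := by exact_mod_cast h1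
  have h4 : m * (4 * l ^ 2 - 1) = 0 := by linear_combination -h3
  rcases mul_eq_zero.1 h4 with h5 | h5
  · exact hm0 h5
  · omega

end Pool.Agent.H105.EQ
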