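import Pool.Agent.H105.EQ.Val
import Pool.Agent.H105.EQ.Quad

/-!
# Even exponents over quadratic fields: the primes above two
-/

set_option autoImplicit false
set_option linter.all false

namespace Pool.Agent.H105.EQ

open NumberField IsDedekindDomain Polynomial WithZero

variable {K : Type} [Field K] [NumberField K]

theorem mem_pow_iff (P : HeightOneSpectrum (𝓞 K)) (a : 𝓞 K) (k : ℕ) :
    a ∈ P.asIdeal ^ k ↔ P.valuation K (algebraMap (𝓞 K) K a) ≤ exp (-(k : ℤ)) := by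
  have h1 : P.valuation K (algebraMap (𝓞 K) K a) = P.intValuation a :=
    HeightOneSpectrum.valuation_of_algebraMap (K := K) P a
  rw [h1]
  exact (P.intValuation_le_pow_iff_mem a k).symm

theorem one_notMem (P : HeightOneSpectrum (𝓞 K)) : (1 : 𝓞 K) ∉ P.asIdeal :=
  (Ideal.ne_top_iff_one _).1 P.isPrime.ne_top

/-- odd integers are prime to a prime above two -/
theorem odd_notMem {P : HeightOneSpectrum (𝓞 K)} (h2 : (2 : 𝓞 K) ∈ P.asIdeal) {n : ℤ}
    (hn : Odd n) : (n : 𝓞 K) ∉ P.asIdeal := by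
  intro h
  obtain ⟨k, rfl⟩ := hn
  apply one_notMem P
  have h1 : ((2 * k + 1 : ℤ) : 𝓞 K) - 2 * k = 1 := by push_cast; ring
  rw [← h1]
  exact P.asIdeal.sub_mem h (P.asIdeal.mul_mem_right _ h2)

theorem V_odd {P : HeightOneSpectrum (𝓞 K)} (h2 : (2 : 𝓞 K) ∈ P.asIdeal) {n : ℤ}
    (hn : Odd n) : P.valuation K (n : K) = 1 := by
  have h1 := (HeightOneSpectrum.valuation_eq_one_iff_notMem (K := K) (v := P)
    (r := (n : 𝓞 K))).2 (odd_notMem h2 hn)
  simpa using h1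

theorem V_two_lt {P : HeightOneSpectrum (𝓞 K)} (h2 : (2 : 𝓞 K) ∈ P.asIdeal) :
    P.valuation K (2 : K) < 1 := by
  have h1 := (HeightOneSpectrum.valuation_lt_one_iff_mem (K := K) P (2 : 𝓞 K)).2 h2
  have e : algebraMap (𝓞 K) K 2 = 2 := map_ofNat _ 2
  rw [← e]
  exact h1

theorem absNorm_two (Q : QD K) : Ideal.absNorm (Ideal.span {(2 : 𝓞 K)}) = 4 := by
  rw [Ideal.absNorm_span_singleton]
  have h1 : Algebra.norm ℤ (2 : 𝓞 K) = 4 := by
    have h2 := Q.hN 2
    have hσ2 : Q.σ 2 = 2 := map_ofNat Q.σ 2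
    rw [hσ2] at h2
    have h3 : ((Algebra.norm ℤ (2 : 𝓞 K) : ℤ) : 𝓞 K) = ((4 : ℤ) : 𝓞 K) := by
      rw [h2]
      push_cast
      norm_num
    exact_mod_cast h3
  rw [h1]
  rfl

theorem two_le_absNorm (P : HeightOneSpectrum (𝓞 K)) : 2 ≤ Ideal.absNorm P.asIdeal := by
  have h1 : Ideal.absNorm P.asIdeal ≠ 1 := fun h =>
    P.isPrime.ne_top (Ideal.absNorm_eq_one_iff.1 h)
  have h0 : Ideal.absNorm P.asIdeal ≠ 0 := fun h =>
    P.ne_bot (Ideal.absNorm_eq_zero_iff.1 h)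
  omega

theorem absNorm_pow_dvd (Q : QD K) (P : HeightOneSpectrum (𝓞 K)) (k : ℕ)
    (h : (2 : 𝓞 K) ∈ P.asIdeal ^ k) : Ideal.absNorm P.asIdeal ^ k ∣ 4 := by
  rw [← absNorm_two Q, ← map_pow]
  exact Ideal.absNorm_dvd_absNorm_of_le (by
    rw [Ideal.span_singleton_le_iff_mem]
    exact h)

/-- the residue field at `P` has two elements and `V 2 = exp (-e)` -/
structure Loc (P : HeightOneSpectrum (𝓞 K)) (e : ℕ) : Prop where
  h2 : (2 : 𝓞 K) ∈ P.asIdeal
  hn : Ideal.absNorm P.asIdeal = 2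
  he : L (P.valuation K) (2 : K) = -(e : ℤ)

theorem Loc.card {P : HeightOneSpectrum (𝓞 K)} {e : ℕ} (l : Loc P e) (a : 𝓞 K)
    (ha : a ∉ P.asIdeal) : a - 1 ∈ P.asIdeal := by
  have hc : Nat.card (𝓞 K ⧸ P.asIdeal) = 2 := by
    rw [← l.hn]
    rfl
  have hM : P.asIdeal.IsMaximal := P.isPrime.isMaximal P.ne_bot
  let _ := Ideal.Quotient.field P.asIdeal
  have hfin : Finite (𝓞 K ⧸ P.asIdeal) := Nat.finite_of_card_ne_zero (by omega)
  let _ := Fintype.ofFinite (𝓞 K ⧸ P.asIdeal)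
  have h3 := FiniteField.pow_card (Ideal.Quotient.mk P.asIdeal a)
  rw [← Nat.card_eq_fintype_card, hc, ← map_pow, ← sub_eq_zero, ← map_sub,
    Ideal.Quotient.eq_zero_iff_mem] at h3
  have h4 : a ^ 2 - a = a * (a - 1) := by ring
  rw [h4] at h3
  exact (P.isPrime.mem_or_mem h3).resolve_left ha

theorem Loc.sub_one {P : HeightOneSpectrum (𝓞 K)} {e : ℕ} (l : Loc P e) {x : K}
    (hx : P.valuation K x = 1) : P.valuation K (x - 1) < 1 := by
  obtain ⟨a, ha⟩ := HeightOneSpectrum.exists_valuation_sub_lt_of_integer P hx.le 1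
  have ha' : P.valuation K (algebraMap (𝓞 K) K a - x) < 1 := ha
  have h1 : P.valuation K (algebraMap (𝓞 K) K a) = 1 := by
    have h2 : algebraMap (𝓞 K) K a = x + (algebraMap (𝓞 K) K a - x) := by ring
    rw [h2, ← hx]
    apply Valuation.map_add_eq_of_lt_left
    rw [hx]
    exact ha'
  have h2 : a ∉ P.asIdeal := (HeightOneSpectrum.valuation_eq_one_iff_notMem (K := K) P).1 h1
  have h3 := l.card a h2
  have h4 := (HeightOneSpectrum.valuation_lt_one_iff_mem (K := K) P _).2 h3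
  have h5 : x - 1 = algebraMap (𝓞 K) K (a - 1) - (algebraMap (𝓞 K) K a - x) := by
    rw [map_sub, map_one]
    ring
  rw [h5]
  exact (Valuation.map_sub _ _ _).trans_lt (max_lt h4 ha')

theorem two_ne : (2 : K) ≠ 0 := two_ne_zero

theorem mem_pow_of_L {P : HeightOneSpectrum (𝓞 K)} {a : 𝓞 K}
    (ha : algebraMap (𝓞 K) K a ≠ 0) {k : ℕ}
    (h : L (P.valuation K) (algebraMap (𝓞 K) K a) ≤ -(k : ℤ)) : a ∈ P.asIdeal ^ k := by
  rw [mem_pow_iff, V_eq ha, exp_le_exp]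
  exact h

theorem loc_of (Q : QD K) (P : HeightOneSpectrum (𝓞 K)) (h2 : (2 : 𝓞 K) ∈ P.asIdeal)
    (e : ℕ) (he : L (P.valuation K) (2 : K) ≤ -(e : ℤ)) :
    Ideal.absNorm P.asIdeal ^ e ∣ 4 := by
  apply absNorm_pow_dvd Q P e
  apply mem_pow_of_L
  · rw [map_ofNat]
    exact two_ne
  · rw [map_ofNat]
    exact he

theorem pow_dvd_four {N e : ℕ} (hN : 2 ≤ N) (h : N ^ e ∣ 4) : e ≤ 2 := by
  by_contra hcon
  push Not at hcon
  have h1 := Nat.le_of_dvd (by norm_num) h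
  have h2 : 2 ^ 3 ≤ N ^ e := (Nat.pow_le_pow_right (by norm_num) hcon).trans
    (Nat.pow_le_pow_left hN e)
  omega

/-- the ramified case -/
theorem loc_ram (Q : QD K) (hm : Q.m % 4 = 2 ∨ Q.m % 4 = 3) (P : HeightOneSpectrum (𝓞 K))
    (h2 : (2 : 𝓞 K) ∈ P.asIdeal) : Loc P 2 := by
  obtain ⟨π, θ, hπ, hθ⟩ : ∃ π θ : 𝓞 K, π ^ 2 = 2 * θ ∧ θ ∉ P.asIdeal := by
    rcases hm with hm | hm
    · obtain ⟨k, hk⟩ : ∃ k : ℤ, Q.m = 2 * (2 * k + 1) := ⟨Q.m / 4, by omega⟩
      refine ⟨Q.R, ((2 * k + 1 : ℤ) : 𝓞 K), ?_, odd_notMem h2 ⟨k, rfl⟩⟩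
      rw [Q.hR, hk]
      push_cast
      ring
    · obtain ⟨k, hk⟩ : ∃ k : ℤ, Q.m = 4 * k + 3 := ⟨Q.m / 4, by omega⟩
      refine ⟨1 + Q.R, Q.R + ((2 * (k + 1) : ℤ) : 𝓞 K), ?_, ?_⟩
      · have h1 := Q.hR
        rw [hk] at h1
        push_cast at h1 ⊢
        linear_combination h1
      · intro h
        have h1 : Q.R ∈ P.asIdeal := by
          have h3 : ((2 * (k + 1) : ℤ) : 𝓞 K) ∈ P.asIdeal := by
            push_cast
            exact P.asIdeal.mul_mem_right _ h2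
          have h4 := P.asIdeal.sub_mem h h3
          rwa [add_sub_cancel_right] at h4
        have h5 : ((Q.m : ℤ) : 𝓞 K) ∈ P.asIdeal := by
          rw [← Q.hR, pow_two]
          exact P.asIdeal.mul_mem_right _ h1
        exact odd_notMem h2 (by rw [hk]; exact ⟨2 * k + 1, by ring⟩) h5
  have hθ0 : algebraMap (𝓞 K) K θ ≠ 0 := by
    intro h
    apply hθ
    have : θ = 0 := by
      apply RingOfIntegers.coe_injective
      rw [map_zero]
      exact h
    rw [this]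
    exact P.asIdeal.zero_mem
  have hπK : (algebraMap (𝓞 K) K π) ^ 2 = 2 * algebraMap (𝓞 K) K θ := by
    have := congrArg (algebraMap (𝓞 K) K) hπ
    rwa [map_pow, map_mul, map_ofNat] at this
  have hVθ : L (P.valuation K) (algebraMap (𝓞 K) K θ) = 0 :=
    (eq_one_iff hθ0).1 ((HeightOneSpectrum.valuation_eq_one_iff_notMem (K := K) P).2 hθ)
  have h3 := congrArg (L (P.valuation K)) hπK
  rw [L_pow, L_mul two_ne hθ0, hVθ] at h3
  push_cast at h3
  have h4 : L (P.valuation K) (2 : K) < 0 := (lt_one_iff two_ne).1 (V_two_lt h2)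
  have h5 : L (P.valuation K) (2 : K) ≤ -((2 : ℕ) : ℤ) := by push_cast; omega
  have h6 : ¬ L (P.valuation K) (2 : K) ≤ -((3 : ℕ) : ℤ) := fun h => by
    have h7 := pow_dvd_four (two_le_absNorm P) (loc_of Q P h2 3 h)
    omega
  refine ⟨h2, ?_, by push_cast at h6 ⊢; omega⟩
  have h7 := loc_of Q P h2 2 h5
  have h8 := Nat.le_of_dvd (by norm_num) h7
  have h9 := two_le_absNorm P
  nlinarith

/-- the split case -/
theorem loc_split (Q : QD K) (hm : Q.m % 8 = 1) (P : HeightOneSpectrum (𝓞 K))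
    (h2 : (2 : 𝓞 K) ∈ P.asIdeal) : Loc P 1 := by
  obtain ⟨k, hk⟩ : ∃ k : ℤ, Q.m = 8 * k + 1 := ⟨Q.m / 8, by omega⟩
  obtain ⟨W, hW2, hW⟩ : ∃ W : 𝓞 K, 2 * W = 1 + Q.R ∧ W * (W - 1) = 2 * k := by
    have hRK : ((Q.R : K)) ^ 2 = 8 * k + 1 := by
      have := congrArg (fun w : 𝓞 K => (w : K)) Q.hR
      simp only [map_pow, map_intCast] at this
      rw [this, hk]
      push_cast
      ring
    have hw : ((1 + (Q.R : K)) / 2) * ((1 + (Q.R : K)) / 2 - 1) = 2 * k := by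
      linear_combination (1 / 4 : K) * hRK
    have hint : IsIntegral ℤ ((1 + (Q.R : K)) / 2) := by
      refine ⟨X ^ 2 - X - C (2 * k : ℤ), ?_, ?_⟩
      · have e : (X ^ 2 - X - C (2 * k : ℤ) : Polynomial ℤ) = X ^ 2 - (X + C (2 * k : ℤ)) := by ring
        rw [e]
        refine monic_X_pow_sub ?_
        rw [degree_X_add_C]
        norm_num
      · simp only [eval₂_sub, eval₂_pow, eval₂_X, eval₂_C]
        have : (algebraMap ℤ K) (2 * (k : ℤ)) = 2 * k := by simp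
        rw [this]
        linear_combination hw
    refine ⟨⟨_, hint⟩, RingOfIntegers.coe_injective ?_, RingOfIntegers.coe_injective ?_⟩
    · simp only [map_mul, map_add, map_one, map_ofNat]
      change 2 * ((1 + (Q.R : K)) / 2) = 1 + (Q.R : K)
      ring
    · simp only [map_mul, map_sub, map_one, map_ofNat, map_intCast]
      exact hw
  have h20 : (2 : 𝓞 K) ≠ 0 := two_ne_zero
  have hσW : Q.σ W = 1 - W := by
    apply mul_left_cancel₀ h20
    have h1 := congrArg Q.σ hW2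
    rw [map_mul, map_add, map_one, map_ofNat, Q.hσR] at h1
    linear_combination h1 + hW2
  have hP : P.asIdeal.IsPrime := P.isPrime
  set P' : Ideal (𝓞 K) := P.asIdeal.comap Q.σ with hP'def
  have hP' : P'.IsPrime := hP.comap Q.σ
  have hP'2 : (2 : 𝓞 K) ∈ P' := by
    rw [hP'def, Ideal.mem_comap, map_ofNat]
    exact h2
  have hmem : W ∈ P.asIdeal ∨ W - 1 ∈ P.asIdeal := by
    apply hP.mem_or_mem
    rw [hW]
    exact P.asIdeal.mul_mem_right _ h2
  have hone := one_notMem P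
  have hle : ¬ P' ≤ P.asIdeal := by
    intro hle
    apply hone
    rcases hmem with h | h
    · have h1 : 1 - W ∈ P' := by
        rw [hP'def, Ideal.mem_comap, map_sub, map_one, hσW, sub_sub_cancel]
        exact h
      have := P.asIdeal.add_mem (hle h1) h
      rwa [sub_add_cancel] at this
    · have h1 : W ∈ P' := by
        rw [hP'def, Ideal.mem_comap, hσW, ← neg_sub]
        exact neg_mem h
      have := P.asIdeal.sub_mem (hle h1) h
      rwa [sub_sub_cancel] at this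
  have hcop : IsCoprime P.asIdeal P' := by
    rw [Ideal.isCoprime_iff_sup_eq]
    by_contra hne
    have hPm : P.asIdeal.IsMaximal := hP.isMaximal P.ne_bot
    have h1 : P.asIdeal = P.asIdeal ⊔ P' := hPm.eq_of_le hne le_sup_left
    exact hle (le_sup_right.trans h1.symm.le)
  have hmul : P.asIdeal * P' ∣ Ideal.span {(2 : 𝓞 K)} := by
    rw [Ideal.dvd_span_singleton, ← Ideal.inf_eq_mul_of_isCoprime hcop]
    exact ⟨h2, hP'2⟩
  have hdv : Ideal.absNorm P.asIdeal * Ideal.absNorm P' ∣ 4 := by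
    rw [← absNorm_two Q, ← map_mul]
    exact Ideal.absNorm_dvd_absNorm_of_le (Ideal.dvd_iff_le.1 hmul)
  have hn2 := two_le_absNorm P
  have hn1' : Ideal.absNorm P' ≠ 1 := fun h => hP'.ne_top (Ideal.absNorm_eq_one_iff.1 h)
  have hn0' : Ideal.absNorm P' ≠ 0 := by
    intro h
    rw [h, mul_zero] at hdv
    norm_num at hdv
  have hn2' : 2 ≤ Ideal.absNorm P' := by omega
  have hle4 := Nat.le_of_dvd (by norm_num) hdv
  have hPn : Ideal.absNorm P.asIdeal = 2 := by nlinarith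
  have hPn' : Ideal.absNorm P' = 2 := by nlinarith
  refine ⟨h2, hPn, ?_⟩
  have h4 : L (P.valuation K) (2 : K) < 0 := (lt_one_iff two_ne).1 (V_two_lt h2)
  by_contra hcon
  have h5 : L (P.valuation K) (2 : K) ≤ -((2 : ℕ) : ℤ) := by push_cast at hcon ⊢; omega
  have h22 : (2 : 𝓞 K) ∈ P.asIdeal ^ 2 := by
    apply mem_pow_of_L
    · rw [map_ofNat]
      exact two_ne
    · rw [map_ofNat]
      exact h5
  have h1 : P.asIdeal ^ 2 ∣ Ideal.span {(2 : 𝓞 K)} := by
    rw [Ideal.dvd_span_singleton]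
    exact h22
  have h3 : P.asIdeal ^ 2 * P' ∣ Ideal.span {(2 : 𝓞 K)} :=
    (hcop.pow_left).mul_dvd h1 ((dvd_mul_left P' P.asIdeal).trans hmul)
  have h4 : Ideal.absNorm P.asIdeal ^ 2 * Ideal.absNorm P' ∣ 4 := by
    rw [← absNorm_two Q, ← map_pow, ← map_mul]
    exact Ideal.absNorm_dvd_absNorm_of_le (Ideal.dvd_iff_le.1 h3)
  rw [hPn, hPn'] at h4
  norm_num at h4

end Pool.Agent.H105.EQ
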