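import Mathlib

/-!
# Even exponents over quadratic fields: valuations of `a ^ 2 - b ^ 2`
-/

set_option autoImplicit false

namespace Pool.Agent.H105.EQ

open WithZero Finset

variable {F : Type} [Field F] (V : Valuation F ℤᵐ⁰)

/-- the logarithm of a valuation -/
def L (x : F) : ℤ := log (V x)

variable {V}

theorem V_eq {x : F} (hx : x ≠ 0) : V x = exp (L V x) :=
  (exp_log ((Valuation.ne_zero_iff V).2 hx)).symm

theorem L_one : L V (1 : F) = 0 := by simp [L]

theorem L_mul {x y : F} (hx : x ≠ 0) (hy : y ≠ 0) : L V (x * y) = L V x + L V y := by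
  unfold L
  rw [map_mul, log_mul ((Valuation.ne_zero_iff V).2 hx) ((Valuation.ne_zero_iff V).2 hy)]

theorem L_div {x y : F} (hx : x ≠ 0) (hy : y ≠ 0) : L V (x / y) = L V x - L V y := by
  unfold L
  rw [map_div₀, log_div ((Valuation.ne_zero_iff V).2 hx) ((Valuation.ne_zero_iff V).2 hy)]

theorem L_pow (x : F) (n : ℕ) : L V (x ^ n) = n * L V x := by
  unfold L
  rw [map_pow, log_pow]
  simp

theorem L_neg (x : F) : L V (-x) = L V x := by
  unfold L
  rw [Valuation.map_neg]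

theorem lt_iff {x y : F} (hx : x ≠ 0) (hy : y ≠ 0) : V x < V y ↔ L V x < L V y := by
  rw [V_eq hx, V_eq hy, exp_lt_exp]

theorem le_iff {x y : F} (hx : x ≠ 0) (hy : y ≠ 0) : V x ≤ V y ↔ L V x ≤ L V y := by
  rw [V_eq hx, V_eq hy, exp_le_exp]

theorem eq_iff {x y : F} (hx : x ≠ 0) (hy : y ≠ 0) : V x = V y ↔ L V x = L V y := by
  rw [V_eq hx, V_eq hy, exp_inj]

theorem le_one_iff {x : F} (hx : x ≠ 0) : V x ≤ 1 ↔ L V x ≤ 0 := by
  rw [← map_one V, le_iff hx one_ne_zero, L_one]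

theorem lt_one_iff {x : F} (hx : x ≠ 0) : V x < 1 ↔ L V x < 0 := by
  rw [← map_one V, lt_iff hx one_ne_zero, L_one]

theorem eq_one_iff {x : F} (hx : x ≠ 0) : V x = 1 ↔ L V x = 0 := by
  rw [← map_one V, eq_iff hx one_ne_zero, L_one]

/-- `V (r ^ i - 1) ≤ V (r - 1)` -/
theorem pow_sub_one_le {r : F} (hr : V r ≤ 1) (i : ℕ) : V (r ^ i - 1) ≤ V (r - 1) := by
  have h := geom_sum_mul r i
  rw [← h, map_mul]
  have h1 : V (∑ j ∈ range i, r ^ j) ≤ 1 :=
    V.map_sum_le fun j _ => by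
      rw [map_pow]
      exact pow_le_one₀ zero_le hr
  calc V (∑ j ∈ range i, r ^ j) * V (r - 1) ≤ 1 * V (r - 1) := by gcongr
    _ = _ := one_mul _

theorem sum_le_one {r : F} (hr : V r ≤ 1) (p : ℕ) : V (∑ j ∈ range p, r ^ j) ≤ 1 :=
  V.map_sum_le fun j _ => by
    rw [map_pow]
    exact pow_le_one₀ zero_le hr

theorem sum_sub_le {r : F} (hr : V r ≤ 1) (p : ℕ) :
    V ((∑ j ∈ range p, r ^ j) - p) ≤ V (r - 1) := by
  have h : (∑ j ∈ range p, r ^ j) - p = ∑ j ∈ range p, (r ^ j - 1) := by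
    rw [sum_sub_distrib]
    simp
  rw [h]
  exact V.map_sum_le fun j _ => pow_sub_one_le hr j

theorem sum_eq {r : F} (hr : V r ≤ 1) (p : ℕ) (h : V (r - 1) < V (p : F)) :
    V (∑ j ∈ range p, r ^ j) = V (p : F) := by
  have h1 := (sum_sub_le hr p).trans_lt h
  have h2 : (∑ j ∈ range p, r ^ j) = p + ((∑ j ∈ range p, r ^ j) - p) := by ring
  rw [h2]
  exact Valuation.map_add_eq_of_lt_left V h1


/-- `a ^ (2 p) = ε b ^ (2 p) + t ^ (2 p)` with `ε = ± 1`, all terms nonzero -/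
structure Sol (p : ℕ) (a b t ε : F) : Prop where
  ha : a ≠ 0
  hb : b ≠ 0
  ht : t ≠ 0
  hε : ε = 1 ∨ ε = -1
  h : a ^ (2 * p) = ε * b ^ (2 * p) + t ^ (2 * p)

section

variable {p : ℕ} {a b t ε : F}

theorem Sol.eps (s : Sol p a b t ε) : ε ≠ 0 := by
  rcases s.hε with h | h <;> rw [h] <;> simp

theorem Sol.Leps (s : Sol p a b t ε) : L V ε = 0 := by
  rcases s.hε with h | h <;> rw [h]
  · exact L_one
  · rw [L_neg, L_one]

/-- the ratio -/
def ratio (a b ε : F) : F := a ^ 2 / (ε * b ^ 2)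

theorem Sol.eps_pow (s : Sol p a b t ε) (hp : Odd p) : ε ^ p = ε := by
  rcases s.hε with h | h <;> rw [h]
  · simp
  · exact hp.neg_one_pow

theorem Sol.w_ne (s : Sol p a b t ε) : ε * b ^ 2 ≠ 0 :=
  mul_ne_zero s.eps (pow_ne_zero 2 s.hb)

theorem Sol.ratio_ne (s : Sol p a b t ε) : ratio a b ε ≠ 0 :=
  div_ne_zero (pow_ne_zero 2 s.ha) s.w_ne

theorem Sol.ratio_pow (s : Sol p a b t ε) (hp : Odd p) :
    ratio a b ε ^ p - 1 = t ^ (2 * p) / (ε * b ^ (2 * p)) := by
  have h1 : ε * b ^ (2 * p) ≠ 0 := mul_ne_zero s.eps (pow_ne_zero _ s.hb)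
  unfold ratio
  rw [div_pow, mul_pow, s.eps_pow hp, ← pow_mul, ← pow_mul, s.h, add_div, div_self h1]
  ring

theorem Sol.rpow_ne (s : Sol p a b t ε) (hp : Odd p) : ratio a b ε ^ p - 1 ≠ 0 := by
  rw [s.ratio_pow hp]
  exact div_ne_zero (pow_ne_zero _ s.ht) (mul_ne_zero s.eps (pow_ne_zero _ s.hb))

theorem Sol.fac (_ : Sol p a b t ε) :
    (∑ j ∈ range p, ratio a b ε ^ j) * (ratio a b ε - 1) = ratio a b ε ^ p - 1 :=
  geom_sum_mul _ _

theorem Sol.r1_ne (s : Sol p a b t ε) (hp : Odd p) : ratio a b ε - 1 ≠ 0 := by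
  intro h
  have h1 := s.fac
  rw [h, mul_zero] at h1
  exact s.rpow_ne hp h1.symm

theorem Sol.G_ne (s : Sol p a b t ε) (hp : Odd p) : (∑ j ∈ range p, ratio a b ε ^ j) ≠ 0 := by
  intro h
  have h1 := s.fac
  rw [h, zero_mul] at h1
  exact s.rpow_ne hp h1.symm

theorem Sol.c_eq (s : Sol p a b t ε) : a ^ 2 - ε * b ^ 2 = ε * b ^ 2 * (ratio a b ε - 1) := by
  have h1 := s.w_ne
  unfold ratio
  rw [mul_sub, mul_one, mul_div_cancel₀ _ h1]

theorem Sol.c_ne (s : Sol p a b t ε) (hp : Odd p) : a ^ 2 - ε * b ^ 2 ≠ 0 := by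
  rw [s.c_eq]
  exact mul_ne_zero s.w_ne (s.r1_ne hp)

theorem Sol.L_c (s : Sol p a b t ε) (hp : Odd p) :
    L V (a ^ 2 - ε * b ^ 2) = 2 * L V b + L V (ratio a b ε - 1) := by
  rw [s.c_eq, L_mul s.w_ne (s.r1_ne hp), L_mul s.eps (pow_ne_zero 2 s.hb), s.Leps, L_pow]
  push_cast
  ring

theorem Sol.L_ratio (s : Sol p a b t ε) : L V (ratio a b ε) = 2 * L V a - 2 * L V b := by
  unfold ratio
  rw [L_div (pow_ne_zero 2 s.ha) s.w_ne, L_mul s.eps (pow_ne_zero 2 s.hb), s.Leps, L_pow, L_pow]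
  push_cast
  ring

theorem Sol.L_fac (s : Sol p a b t ε) (hp : Odd p) :
    L V (∑ j ∈ range p, ratio a b ε ^ j) + L V (ratio a b ε - 1) =
      2 * p * L V t - 2 * p * L V b := by
  rw [← L_mul (s.G_ne hp) (s.r1_ne hp), s.fac, s.ratio_pow hp,
    L_div (pow_ne_zero _ s.ht) (mul_ne_zero s.eps (pow_ne_zero _ s.hb)),
    L_mul s.eps (pow_ne_zero _ s.hb), s.Leps, L_pow, L_pow]
  push_cast
  ring

/-- if `t` is strictly smaller than `a` or `b`, then `a` and `b` have the same valuation -/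
theorem Sol.same (s : Sol p a b t ε) (hp0 : p ≠ 0) (h : V t < V a ∨ V t < V b) : V a = V b := by
  have h2p : 2 * p ≠ 0 := by omega
  have hVε : V ε = 1 := by
    rcases s.hε with h | h <;> rw [h] <;> simp
  have key : ∀ x y : F, V x < V y → V x ^ (2 * p) < V y ^ (2 * p) := fun x y hxy =>
    pow_lt_pow_left₀ hxy zero_le h2p
  rcases h with h | h
  · have h1 : V (ε * b ^ (2 * p)) = V (a ^ (2 * p)) := by
      have h2 : ε * b ^ (2 * p) = a ^ (2 * p) - t ^ (2 * p) := by rw [s.h]; ring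
      rw [h2]
      apply Valuation.map_sub_eq_of_lt_left
      rw [map_pow, map_pow]
      exact key _ _ h
    rw [map_mul, hVε, one_mul, map_pow, map_pow] at h1
    exact ((pow_left_inj₀ zero_le zero_le h2p).1 h1).symm
  · have h1 : V (a ^ (2 * p)) = V (ε * b ^ (2 * p)) := by
      rw [s.h]
      apply Valuation.map_add_eq_of_lt_left
      rw [map_mul, hVε, one_mul, map_pow, map_pow]
      exact key _ _ h
    rw [map_mul, hVε, one_mul, map_pow, map_pow] at h1
    exact (pow_left_inj₀ zero_le zero_le h2p).1 h1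

/-- the valuation of `a ^ 2 - ε b ^ 2` is even -/
theorem Sol.even (s : Sol p a b t ε) (hp : Odd p)
    (hV : V (p : F) = 1 ∨ ¬ (V t < V a ∧ V t < V b)) :
    ∃ k : ℤ, L V (a ^ 2 - ε * b ^ 2) = 2 * k := by
  by_cases hab : V a = V b
  · have hL : L V a = L V b := (eq_iff s.ha s.hb).1 hab
    have hr : V (ratio a b ε) = 1 := by
      rw [eq_one_iff s.ratio_ne, s.L_ratio, hL]; ring
    have hG := (le_one_iff (s.G_ne hp)).1 (sum_le_one hr.le p)
    have h1 := s.L_fac (V := V) hp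
    have h2 := s.L_c (V := V) hp
    have hr1 : L V (ratio a b ε - 1) ≤ 0 := by
      rw [← le_one_iff (s.r1_ne hp)]
      refine (V.map_sub _ _).trans ?_
      simp [hr]
    rcases hV with hV | hV
    · rcases hr1.lt_or_eq with h3 | h3
      · have h4 : V (∑ j ∈ range p, ratio a b ε ^ j) = V (p : F) := by
          apply sum_eq hr.le
          rw [hV, lt_one_iff (s.r1_ne hp)]
          exact h3
        rw [hV, eq_one_iff (s.G_ne hp)] at h4
        exact ⟨L V b + (p * L V t - p * L V b), by linarith⟩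
      · exact ⟨L V b, by linarith⟩
    · have h3 : V b ≤ V t := by
        by_contra hcon
        push Not at hcon
        exact hV ⟨hab ▸ hcon, hcon⟩
      rw [le_iff s.hb s.ht] at h3
      have h4 : (0 : ℤ) ≤ 2 * p * L V t - 2 * p * L V b := by
        have : (0 : ℤ) ≤ 2 * p * (L V t - L V b) := by positivity
        linarith
      exact ⟨L V b, by linarith⟩
  · have hVε : V ε = 1 := by
      rcases s.hε with h | h <;> rw [h] <;> simp
    have hw : V (ε * b ^ 2) = V b ^ 2 := by rw [map_mul, hVε, one_mul, map_pow]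
    rcases lt_or_gt_of_ne hab with h | h
    · refine ⟨L V b, ?_⟩
      have h1 : V (a ^ 2 - ε * b ^ 2) = V (ε * b ^ 2) := by
        apply Valuation.map_sub_eq_of_lt_right
        rw [hw, map_pow]
        exact pow_lt_pow_left₀ h zero_le two_ne_zero
      have h2 := (eq_iff (s.c_ne hp) s.w_ne).1 h1
      rw [h2, L_mul s.eps (pow_ne_zero 2 s.hb), s.Leps, L_pow]
      push_cast
      ring
    · refine ⟨L V a, ?_⟩
      have h1 : V (a ^ 2 - ε * b ^ 2) = V (a ^ 2) := by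
        apply Valuation.map_sub_eq_of_lt_left
        rw [hw, map_pow]
        exact pow_lt_pow_left₀ h zero_le two_ne_zero
      have h2 := (eq_iff (s.c_ne hp) (pow_ne_zero 2 s.ha)).1 h1
      rw [h2, L_pow]
      push_cast
      ring

/-- at a place dividing `t` where `r = 1` modulo the maximal ideal and `p` is a unit -/
theorem Sol.small (s : Sol p a b t ε) (hp : Odd p) (hab : V a = V b) (hp1 : V (p : F) = 1)
    (hr1 : V (ratio a b ε - 1) < 1) :
    L V (ratio a b ε - 1) = 2 * p * L V t - 2 * p * L V b := by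
  have hL : L V a = L V b := (eq_iff s.ha s.hb).1 hab
  have hr : V (ratio a b ε) = 1 := by
    rw [eq_one_iff s.ratio_ne, s.L_ratio, hL]; ring
  have h4 : V (∑ j ∈ range p, ratio a b ε ^ j) = V (p : F) := by
    apply sum_eq hr.le
    rw [hp1]
    exact hr1
  rw [hp1, eq_one_iff (s.G_ne hp)] at h4
  have h1 := s.L_fac (V := V) hp
  linarith

end

end Pool.Agent.H105.EQ
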